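import Mathlib

/-!
# Projective involutions, step 4: algebra of the jets

Here `G2, …, G7` are the Taylor coefficients of the transported function on the tangent line,
`D2, …, D6` their derivatives along the curve, `c` the parameter of the projective involution.
The recursion `e1, …, e5` and the parity relations force the structure equations for
`ρ, c, W, N`.
-/

namespace Pool.Agent.V5helper96.PJ

/-- the quantity `n = (c - r) Dc + ρ c³ + k c` -/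
def nn (rho c c1 r k : ℝ) : ℝ := (c - r) * c1 + rho * c ^ 3 + k * c

lemma alg_rho {rho rho1 c G2 G3 D2 : ℝ}
    (a2 : 2 * rho * G2 = 1) (a3 : 2 * rho * G3 = -c)
    (b2 : 2 * rho1 * G2 + 2 * rho * D2 = 0) (e1 : D2 = 3 * rho * G3) :
    rho1 = 3 * rho ^ 2 * c := by
  linear_combination (-rho1) * a2 + rho * b2 - 2 * rho ^ 2 * e1 - 3 * rho ^ 2 * a3

lemma alg_W {rho c c1 r k W G2 G3 G4 D2 D3 : ℝ}
    (a2 : 2 * rho * G2 = 1) (a3 : 2 * rho * G3 = -c) (a4 : 8 * rho ^ 2 * G4 = 4 * rho * c ^ 2 - W)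
    (b2 : 2 * (3 * rho ^ 2 * c) * G2 + 2 * rho * D2 = 0)
    (b3 : 2 * (3 * rho ^ 2 * c) * G3 + 2 * rho * D3 = -c1)
    (e2 : D3 + r * D2 = 4 * rho * G4 + 2 * k * G2) :
    W = c1 + rho * c ^ 2 + 3 * rho * r * c + 2 * k := by
  linear_combination a4 + 2 * rho * e2 - b3 - r * b2 + 3 * rho * c * a3
    + (2 * k + 3 * rho * r * c) * a2

lemma alg_main {rho c c1 r k W W1 N N1 G2 G3 G4 G5 G6 G7 D2 D3 D4 D5 D6 : ℝ} (hr : rho ≠ 0)
    (hW : W = c1 + rho * c ^ 2 + 3 * rho * r * c + 2 * k)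
    (a2 : 2 * rho * G2 = 1) (a3 : 2 * rho * G3 = -c) (a4 : 8 * rho ^ 2 * G4 = 4 * rho * c ^ 2 - W)
    (p5 : G5 = -2 * c * G4 + c ^ 3 * G2)
    (a6 : 24 * rho ^ 3 * G6 = 12 * rho ^ 2 * c ^ 4 - 9 * rho * c ^ 2 * W + W ^ 2 - 2 * rho * N)
    (p7 : G7 = -3 * c ^ 5 * G2 + 5 * c ^ 3 * G4 - 3 * c * G6)
    (b2 : 2 * (3 * rho ^ 2 * c) * G2 + 2 * rho * D2 = 0)
    (b3 : 2 * (3 * rho ^ 2 * c) * G3 + 2 * rho * D3 = -c1)
    (b4 : 16 * rho * (3 * rho ^ 2 * c) * G4 + 8 * rho ^ 2 * D4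
      = 4 * (3 * rho ^ 2 * c) * c ^ 2 + 8 * rho * c * c1 - W1)
    (b5 : D5 = -2 * c1 * G4 - 2 * c * D4 + 3 * c ^ 2 * c1 * G2 + c ^ 3 * D2)
    (b6 : 72 * rho ^ 2 * (3 * rho ^ 2 * c) * G6 + 24 * rho ^ 3 * D6
      = 24 * rho * (3 * rho ^ 2 * c) * c ^ 4 + 48 * rho ^ 2 * c ^ 3 * c1
        - 9 * (3 * rho ^ 2 * c) * c ^ 2 * W - 18 * rho * c * c1 * W - 9 * rho * c ^ 2 * W1
        + 2 * W * W1 - 2 * (3 * rho ^ 2 * c) * N - 2 * rho * N1)
    (e3 : D4 + r * D3 = 5 * rho * G5 + 3 * k * G3)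
    (e4 : D5 + r * D4 = 6 * rho * G6 + 4 * k * G4)
    (e5 : D6 + r * D5 = 7 * rho * G7 + 5 * k * G5) :
    W1 = 4 * rho * nn rho c c1 r k ∧ N = r * nn rho c c1 r k ∧
    N1 = nn rho c c1 r k * W - 3 * rho * c * N := by
  -- normalised forms
  have a5 : 4 * rho ^ 2 * G5 = -2 * rho * c ^ 3 + c * W := by
    rw [p5]; linear_combination (-c) * a4 + 2 * rho * c ^ 3 * a2
  have a7 : 24 * rho ^ 3 * G7 = -36 * rho ^ 2 * c ^ 5 + 15 * rho * c ^ 3 * (4 * rho * c ^ 2 - W)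
      - 3 * c * (12 * rho ^ 2 * c ^ 4 - 9 * rho * c ^ 2 * W + W ^ 2 - 2 * rho * N) := by
    rw [p7]
    linear_combination (-36 * rho ^ 2 * c ^ 5) * a2 + 15 * rho * c ^ 3 * a4 - 3 * c * a6
  have b2' : 2 * rho * D2 = -3 * rho * c := by linear_combination b2 - 3 * rho * c * a2
  have b3' : 2 * rho * D3 = -c1 + 3 * rho * c ^ 2 := by
    linear_combination b3 - 3 * rho * c * a3
  have b4' : 8 * rho ^ 2 * D4 = 8 * rho * c * c1 - 12 * rho ^ 2 * c ^ 3 - W1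
      + 6 * rho * c * W := by
    linear_combination b4 - 6 * rho * c * a4
  have b5' : 4 * rho ^ 2 * D5 = 6 * rho ^ 2 * c ^ 4 - 6 * rho * c ^ 2 * c1 + W * c1 + c * W1
      - 6 * rho * c ^ 2 * W := by
    rw [b5]
    linear_combination (-c1) * a4 - c * b4' + 6 * rho * c ^ 2 * c1 * a2 + 2 * rho * c ^ 3 * b2'
  have b6' : 24 * rho ^ 3 * D6 = -36 * rho ^ 3 * c ^ 5 + 48 * rho ^ 2 * c ^ 3 * c1
      + 54 * rho ^ 2 * c ^ 3 * W - 18 * rho * c * W * c1 - 9 * rho * c ^ 2 * W1 + 2 * W * W1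
      + 12 * rho ^ 2 * c * N - 2 * rho * N1 - 9 * rho * c * W ^ 2 := by
    linear_combination b6 - 9 * rho * c * a6
  have hW1 : W1 = 4 * rho * nn rho c c1 r k := by
    simp only [nn]
    linear_combination b4' - 8 * rho ^ 2 * e3 + 4 * rho * r * b3' - 10 * rho * a5
      - 12 * rho * k * a3 - 4 * rho * c * hW
  have hN : N = r * nn rho c c1 r k := by
    have h1 : 4 * rho * (N - r * nn rho c c1 r k) = 0 := by
      have h2 : 2 * (6 * rho ^ 2 * c ^ 4 - 6 * rho * c ^ 2 * c1 + W * c1 + c * W1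
          - 6 * rho * c ^ 2 * W) + r * (8 * rho * c * c1 - 12 * rho ^ 2 * c ^ 3 - W1
          + 6 * rho * c * W)
          = 2 * (12 * rho ^ 2 * c ^ 4 - 9 * rho * c ^ 2 * W + W ^ 2 - 2 * rho * N)
            + 4 * k * (4 * rho * c ^ 2 - W) := by
        linear_combination 8 * rho ^ 2 * e4 - 2 * b5' - r * b4' + 2 * a6 + 4 * k * a4
      rw [hW1, hW] at h2
      simp only [nn] at h2 ⊢
      linear_combination h2
    have h3 : N - r * nn rho c c1 r k = 0 := by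
      rcases mul_eq_zero.mp h1 with h | h
      · exact absurd h (by positivity)
      · exact h
    linarith
  refine ⟨hW1, hN, ?_⟩
  have h1 : 2 * rho * (N1 - (nn rho c c1 r k * W - 3 * rho * c * N)) = 0 := by
    have h2 : (-36 * rho ^ 3 * c ^ 5 + 48 * rho ^ 2 * c ^ 3 * c1
      + 54 * rho ^ 2 * c ^ 3 * W - 18 * rho * c * W * c1 - 9 * rho * c ^ 2 * W1 + 2 * W * W1
      + 12 * rho ^ 2 * c * N - 2 * rho * N1 - 9 * rho * c * W ^ 2)
      + 6 * rho * r * (6 * rho ^ 2 * c ^ 4 - 6 * rho * c ^ 2 * c1 + W * c1 + c * W1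
      - 6 * rho * c ^ 2 * W)
      = 7 * rho * (-36 * rho ^ 2 * c ^ 5 + 15 * rho * c ^ 3 * (4 * rho * c ^ 2 - W)
      - 3 * c * (12 * rho ^ 2 * c ^ 4 - 9 * rho * c ^ 2 * W + W ^ 2 - 2 * rho * N))
      + 30 * rho * k * (-2 * rho * c ^ 3 + c * W) := by
      linear_combination 24 * rho ^ 3 * e5 - b6' - 6 * rho * r * b5' + 7 * rho * a7
        + 30 * rho * k * a5
    rw [hN, hW1, hW] at h2
    rw [hN, hW]
    simp only [nn] at h2 ⊢
    linear_combination -h2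
  have h3 : N1 - (nn rho c c1 r k * W - 3 * rho * c * N) = 0 := by
    rcases mul_eq_zero.mp h1 with h | h
    · exact absurd h (by positivity)
    · exact h
  linarith

end Pool.Agent.V5helper96.PJ
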