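import Pool.Agent.V5helper96.PJ.Rigid

/-!
# Projective involutions, step 8: all invariants are constant
-/

open Filter Topology Set

namespace Pool.Agent.V5helper96.PJ

variable {M : ℝ × ℝ →L[ℝ] ℝ × ℝ} {p e : ℝ → ℝ × ℝ} {lam rho r : ℝ → ℝ} {L : ℝ}
variable {c c1 W N : ℝ → ℝ}

lemma Q4_pos (F : Frame M p e lam rho r L) (E : Eqs M p e lam rho r c c1 W N)
    (x s : ℝ) : 0 < Q4 rho c W N (x, s) := by
  by_contra hcon
  push Not at hcon
  have hQc := E.cont_Q4 F
  have hc : Continuous fun s : ℝ => Q4 rho c W N (x, s) := hQc.comp (by fun_prop)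
  have h0 : 0 < Q4 rho c W N (x, 0) := by
    have := F.rho_pos x
    simp only [Q4]
    norm_num
    exact this
  have hpre : IsPreconnected (univ : Set ℝ) := isPreconnected_univ
  obtain ⟨t, _, ht⟩ := hpre.intermediate_value (mem_univ s) (mem_univ (0 : ℝ))
    hc.continuousOn ⟨hcon, h0.le⟩
  exact no_zero F E _ ht

lemma N_nonneg (F : Frame M p e lam rho r L) (E : Eqs M p e lam rho r c c1 W N)
    (x : ℝ) : 0 ≤ N x := by
  have hlim : Tendsto (fun t : ℝ => 2 * rho x * (t * (t + c x)) ^ 2 + W x * (t * (t + c x)) + N x)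
      (𝓝[≠] 0) (𝓝 (N x)) := by
    have h1 : Tendsto (fun t : ℝ => 2 * rho x * (t * (t + c x)) ^ 2 + W x * (t * (t + c x)) + N x)
      (𝓝 0) (𝓝 (2 * rho x * (0 * (0 + c x)) ^ 2 + W x * (0 * (0 + c x)) + N x)) :=
      Continuous.tendsto (by fun_prop) 0
    have h2 : 2 * rho x * (0 * (0 + c x)) ^ 2 + W x * (0 * (0 + c x)) + N x = N x := by ring
    rw [h2] at h1
    exact h1.mono_left nhdsWithin_le_nhds
  refine ge_of_tendsto hlim ?_
  filter_upwards [self_mem_nhdsWithin] with t ht
  have ht0 : t ≠ 0 := ht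
  have h1 := Q4_pos F E x t⁻¹
  have h2 : 2 * rho x * (t * (t + c x)) ^ 2 + W x * (t * (t + c x)) + N x
      = t ^ 4 * Q4 rho c W N (x, t⁻¹) := by
    simp only [Q4]
    field_simp
  rw [h2]
  have : 0 < t ^ 4 := by positivity
  positivity

/-- `8ρN = W² - δ` -/
lemma first_integral (F : Frame M p e lam rho r L) (E : Eqs M p e lam rho r c c1 W N) :
    ∃ δ : ℝ, ∀ x, 8 * rho x * N x = W x ^ 2 - δ := by
  have hd : ∀ x, HasDerivAt (fun x => W x ^ 2 - 8 * rho x * N x) 0 x := by
    intro x
    have h1 := ((E.d_W x).pow 2).sub (((E.d_rho x).const_mul 8).mul (E.d_N x))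
    refine h1.congr_deriv ?_
    push_cast
    ring
  refine ⟨W 0 ^ 2 - 8 * rho 0 * N 0, fun x => ?_⟩
  have hdiff : Differentiable ℝ (fun x => W x ^ 2 - 8 * rho x * N x) :=
    fun x => (hd x).differentiableAt
  have := is_const_of_deriv_eq_zero hdiff (fun x => (hd x).deriv) x 0
  linarith

/-- `W` is constant -/
lemma W_const (F : Frame M p e lam rho r L) (E : Eqs M p e lam rho r c c1 W N) :
    ∀ x y, W x = W y := by
  obtain ⟨δ, hδ⟩ := first_integral F E
  have hWc := cont_of_deriv E.d_W
  have hext : ∀ m, (∀ x, W x ≤ W m) ∨ (∀ x, W m ≤ W x) → N m = 0 := by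
    intro m hm
    have hd : deriv W m = 0 := by
      rcases hm with h | h
      · exact (show IsLocalMax W m from Filter.Eventually.of_forall h).deriv_eq_zero
      · exact (show IsLocalMin W m from Filter.Eventually.of_forall h).deriv_eq_zero
    rw [(E.d_W m).deriv] at hd
    have h1 := F.lam_pos m
    have h2 := F.rho_pos m
    have h3 := (mul_eq_zero.mp hd).resolve_left h1.ne'
    have h4 := (mul_eq_zero.mp h3).resolve_left (by positivity)
    rw [E.N_eq, h4, mul_zero]
  have hper : Function.Periodic W L := E.per_W F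
  obtain ⟨a, _, ha⟩ := isCompact_Icc.exists_isMaxOn (s := Icc (0 : ℝ) L)
    (nonempty_Icc.mpr F.L_pos.le) hWc.continuousOn
  obtain ⟨b, _, hb⟩ := isCompact_Icc.exists_isMinOn (s := Icc (0 : ℝ) L)
    (nonempty_Icc.mpr F.L_pos.le) hWc.continuousOn
  have ha' : ∀ x, W x ≤ W a := fun x => by
    obtain ⟨y, hy, hxy⟩ := hper.exists_mem_Ico₀ F.L_pos x
    rw [hxy]; exact ha ⟨hy.1, hy.2.le⟩
  have hb' : ∀ x, W b ≤ W x := fun x => by
    obtain ⟨y, hy, hxy⟩ := hper.exists_mem_Ico₀ F.L_pos x
    rw [hxy]; exact hb ⟨hy.1, hy.2.le⟩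
  have hNa := hext a (Or.inl ha')
  have hNb := hext b (Or.inr hb')
  have h1 := hδ a
  have h2 := hδ b
  rw [hNa, mul_zero] at h1
  rw [hNb, mul_zero] at h2
  have hge : ∀ x, δ ≤ W x ^ 2 := fun x => by
    have := N_nonneg F E x
    have h3 := F.rho_pos x
    have h4 := hδ x
    have : 0 ≤ 8 * rho x * N x := by positivity
    linarith
  have hab : W a = W b := by
    by_contra hne
    have h3 : (W a - W b) * (W a + W b) = 0 := by linarith
    have h4 : W a + W b = 0 := (mul_eq_zero.mp h3).resolve_left (sub_ne_zero.mpr hne)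
    have h5 : W b < W a := lt_of_le_of_ne (hb' a) (Ne.symm hne)
    have h6 : W b ≤ 0 := by linarith
    have h7 : 0 ≤ W a := by linarith
    obtain ⟨t, _, ht⟩ := isPreconnected_univ.intermediate_value (mem_univ b) (mem_univ a)
      hWc.continuousOn ⟨h6, h7⟩
    have h8 := hge t
    rw [ht] at h8
    nlinarith
  intro x y
  have := ha' x
  have := hb' x
  have := ha' y
  have := hb' y
  linarith

/-- all invariants of the frame are constant -/
theorem all_const (F : Frame M p e lam rho r L) (E : Eqs M p e lam rho r c c1 W N) :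
    (∀ x, c x = 0) ∧ (∀ x, rho x = rho 0) ∧ (∀ x, r x = r 0) ∧
    (∀ x, dt (e x) (p x) = dt (e 0) (p 0)) ∧
    (∀ x, dt (p x) (M (p x)) = rho 0 * r 0 * dt (e 0) (p 0)) ∧
    tr M * dt (e 0) (p 0) = -2 ∧
    2 * Frame.qq M p e 0 = tr M + 2 * rho 0 * r 0 ^ 2 := by
  have hWc := W_const F E
  have hn : ∀ x, nn (rho x) (c x) (c1 x) (r x) (Frame.kk M p e rho r x) = 0 := fun x => by
    have h1 : HasDerivAt W 0 x := by
      have : W = fun _ => W 0 := funext fun y => hWc y 0
      rw [this]; exact hasDerivAt_const x _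
    have h2 := (E.d_W x).unique h1
    have h3 := F.lam_pos x
    have h4 := F.rho_pos x
    have h5 := (mul_eq_zero.mp h2).resolve_left h3.ne'
    exact (mul_eq_zero.mp h5).resolve_left (by positivity)
  have hN : ∀ x, N x = 0 := fun x => by rw [E.N_eq, hn, mul_zero]
  have hc : ∀ x, c x = 0 := fun x => by
    by_contra hne
    refine no_zero F E (x, -(c x)⁻¹) ?_
    simp only [Q4, hN x]
    have : 1 + c x * -(c x)⁻¹ = 0 := by field_simp; ring
    rw [this]; ring
  have hc1 : ∀ x, c1 x = 0 := fun x => by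
    have h1 : HasDerivAt c 0 x := by
      have : c = fun _ => 0 := funext hc
      rw [this]; exact hasDerivAt_const x _
    have h2 := (E.d_c x).unique h1
    exact (mul_eq_zero.mp h2).resolve_left (F.lam_pos x).ne'
  have hrho : ∀ x, rho x = rho 0 := fun x => by
    have hd : ∀ x, HasDerivAt rho 0 x := fun x => by
      have := E.d_rho x
      rw [hc x] at this
      simpa using this
    exact is_const_of_deriv_eq_zero (fun x => (hd x).differentiableAt)
      (fun x => (hd x).deriv) x 0
  have hWk : ∀ x, W x = 2 * (Frame.qq M p e x - rho x * r x ^ 2) := fun x => by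
    rw [E.W_eq, hc, hc1]
    simp only [Frame.kk]
    ring
  have hrd : ∀ x, HasDerivAt r (lam x * (W 0 - tr M)) x := fun x => by
    have h1 := F.d_r x
    have h2 : -2 * rho x * r x ^ 2 - tr M + 2 * Frame.qq M p e x = W 0 - tr M := by
      rw [hWc 0 x, hWk x]; ring
    rwa [h2] at h1
  have hWT : W 0 = tr M := by
    obtain ⟨x, hx⟩ := rolle_per F.L_pos hrd F.per_r
    have := (mul_eq_zero.mp hx).resolve_left (F.lam_pos x).ne'
    linarith
  have hr : ∀ x, r x = r 0 := fun x => by
    have hd : ∀ x, HasDerivAt r 0 x := fun x => by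
      have := hrd x
      rw [hWT] at this
      simpa using this
    exact is_const_of_deriv_eq_zero (fun x => (hd x).differentiableAt)
      (fun x => (hd x).deriv) x 0
  have hq : ∀ x, 2 * Frame.qq M p e x = tr M + 2 * rho 0 * r 0 ^ 2 := fun x => by
    have h1 := hWk x
    rw [hWc x 0, hWT, hrho x, hr x] at h1
    linarith
  have hd : ∀ x, dt (e x) (p x) = dt (e 0) (p 0) := fun x => by
    have h1 := hq x
    have h2 := hq 0
    simp only [Frame.qq] at h1 h2
    have h3 := F.det_pos
    refine mul_left_cancel₀ h3.ne' ?_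
    linarith
  have hTd : tr M * dt (e 0) (p 0) = -2 := by
    obtain ⟨x, hx⟩ := rolle_per F.L_pos (fun x => F.d_eta x) (fun x => by rw [F.per_p])
    have h3 : 2 + tr M * Frame.dd p e x = 0 := by
      rcases mul_eq_zero.mp hx with h | h
      · exact absurd h (F.lam_pos x).ne'
      · rcases mul_eq_zero.mp h with h | h
        · exact absurd (neg_eq_zero.mp h) (F.rho_pos x).ne'
        · exact h
    simp only [Frame.dd, hd x] at h3
    linarith
  have heta : ∀ x, dt (p x) (M (p x)) = rho 0 * r 0 * dt (e 0) (p 0) := fun x => by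
    have h1 : HasDerivAt (Frame.dd p e) 0 x := by
      have : Frame.dd p e = fun _ => dt (e 0) (p 0) := funext hd
      rw [this]; exact hasDerivAt_const x _
    have h2 := (F.d_d x).unique h1
    have h3 := (mul_eq_zero.mp h2).resolve_left (F.lam_pos x).ne'
    simp only [Frame.dd, hd x, hrho x, hr x] at h3
    linarith
  exact ⟨hc, hrho, hr, hd, heta, hTd, hq 0⟩

end Pool.Agent.V5helper96.PJ
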