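import Pool.Agent.V5helper96.PJ.Frame
import Pool.Agent.V5helper96.PJ.Alg

/-!
# Projective involutions, step 5: the structure equations

From a frame and a function `f` with `df(My) = 1`, `f = 0` on the curve, whose restrictions to
the tangent lines are invariant under projective involutions, we get functions `c, W, N` with
`Dρ = 3ρ²c`, `DW = 4ρn`, `N = rn`, `DN = nW - 3ρcN`.
-/

open Filter Topology Asymptotics

namespace Pool.Agent.V5helper96.PJ

variable {M : ℝ × ℝ →L[ℝ] ℝ × ℝ} {p e : ℝ → ℝ × ℝ} {lam rho r : ℝ → ℝ} {L : ℝ}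

/-- `f` on the tangent lines -/
def gg (f : ℝ × ℝ → ℝ) (p e : ℝ → ℝ × ℝ) : ℝ × ℝ → ℝ := fun z => f (p z.1 + z.2 • e z.1)

lemma transport_eq (F : Frame M p e lam rho r L) {f : ℝ × ℝ → ℝ} {U : Set (ℝ × ℝ)}
    (hU : IsOpen U) (hf : ContDiffOn ℝ (⊤ : ℕ∞) f U)
    (fM : ∀ y ∈ U, fderiv ℝ f y (M y) = 1) {x s : ℝ} (hy : p x + s • e x ∈ U)
    {a b : ℝ} (ha : HasDerivAt (fun t => f (p t + s • e t)) a x)
    (hb : HasDerivAt (fun t : ℝ => f (p x + t • e x)) b s) :
    (1 + r x * s) * a = lam x * ((rho x + Frame.kk M p e rho r x * s ^ 2) * b - s) := by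
  have hd : HasFDerivAt f (fderiv ℝ f (p x + s • e x)) (p x + s • e x) :=
    (diffAt_of_smooth hU hf hy).hasFDerivAt
  have h1 : HasDerivAt (fun t => p t + s • e t)
      (lam x • (rho x • e x) + s • (lam x • (-(rho x * r x) • e x - M (p x)))) x :=
    (F.dp x).add ((F.de x).const_smul s)
  have h2 : HasDerivAt (fun t : ℝ => p x + t • e x) (e x) s := by
    simpa using ((hasDerivAt_id s).smul_const (e x)).const_add (p x)
  have ea := ha.unique (hd.comp_hasDerivAt x h1)
  have eb := hb.unique (hd.comp_hasDerivAt s h2)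
  have ht := F.transport x s
  have h3 := congrArg (fderiv ℝ f (p x + s • e x)) ht
  rw [map_smul, map_smul, map_sub, map_smul, map_smul, fM _ hy, ← ea, ← eb] at h3
  simpa [smul_eq_mul] using h3

theorem structure_eqs (F : Frame M p e lam rho r L) {f : ℝ × ℝ → ℝ} {U : Set (ℝ × ℝ)}
    (hU : IsOpen U) (hpU : ∀ x, p x ∈ U) (hf : ContDiffOn ℝ (⊤ : ℕ∞) f U)
    (f0 : ∀ x, f (p x) = 0) (fM : ∀ y ∈ U, fderiv ℝ f y (M y) = 1)
    (proj : ∀ x, ∃ c : ℝ, ∀ᶠ s in 𝓝 (0 : ℝ),
      f (p x + s • e x) = f (p x - (s / (1 + c * s)) • e x)) :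
    ∃ c c1 W N : ℝ → ℝ,
      (∀ x, HasDerivAt rho (lam x * (3 * rho x ^ 2 * c x)) x) ∧
      (∀ x, HasDerivAt c (lam x * c1 x) x) ∧
      (∀ x, W x = c1 x + rho x * c x ^ 2 + 3 * rho x * r x * c x
        + 2 * Frame.kk M p e rho r x) ∧
      (∀ x, HasDerivAt W (lam x * (4 * rho x *
        nn (rho x) (c x) (c1 x) (r x) (Frame.kk M p e rho r x))) x) ∧
      (∀ x, N x = r x * nn (rho x) (c x) (c1 x) (r x) (Frame.kk M p e rho r x)) ∧
      (∀ x, HasDerivAt N (lam x * (nn (rho x) (c x) (c1 x) (r x) (Frame.kk M p e rho r x) * W x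
        - 3 * rho x * c x * N x)) x) := by
  classical
  set g := gg f p e with hg
  set Ω : Set (ℝ × ℝ) := {z | p z.1 + z.2 • e z.1 ∈ U} with hΩdef
  have hmap : ContDiff ℝ (⊤ : ℕ∞) (fun z : ℝ × ℝ => p z.1 + z.2 • e z.1) :=
    (F.sm_p.comp contDiff_fst).add (contDiff_snd.smul (F.sm_e.comp contDiff_fst))
  have hΩ : IsOpen Ω := hU.preimage hmap.continuous
  have hgs : ContDiffOn ℝ (⊤ : ℕ∞) g Ω := hf.comp hmap.contDiffOn (fun z hz => hz)
  have h0 : ∀ x, (x, (0 : ℝ)) ∈ Ω := fun x => by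
    simp only [hΩdef, Set.mem_setOf_eq, zero_smul, add_zero]; exact hpU x
  have hev : ∀ x, ∀ᶠ s in 𝓝 (0 : ℝ), (x, s) ∈ Ω := fun x => by
    have hc : Continuous fun s : ℝ => ((x, s) : ℝ × ℝ) := by fun_prop
    exact (hΩ.preimage hc).mem_nhds (h0 x)
  have hA : ∀ x m, ∀ᶠ s in 𝓝 (0 : ℝ),
      HasDerivAt (fun t => FS g m (x, t)) (FS g (m + 1) (x, s)) s := fun x m => by
    filter_upwards [hev x] with s hs using FS_deriv_s hΩ hgs m hs
  have hB : ∀ x m, ∀ᶠ s in 𝓝 (0 : ℝ),
      HasDerivAt (fun t => FX g m (x, t)) (FX g (m + 1) (x, s)) s := fun x m => by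
    filter_upwards [hev x] with s hs using FX_deriv_s hΩ hgs m hs
  set k := Frame.kk M p e rho r with hk
  have hpde : ∀ x s, (x, s) ∈ Ω → (1 + r x * s) * FX g 0 (x, s)
      = lam x * ((rho x + k x * s ^ 2) * FS g 1 (x, s) - s) := fun x s hz => by
    have ha := FS_deriv_x hΩ hgs 0 hz
    have hb := FS_deriv_s hΩ hgs 0 hz
    exact transport_eq F hU hf fM hz ha hb
  have hrec : ∀ x (n : ℕ), FX g (n + 1) (x, 0) + (n + 1) * r x * FX g n (x, 0)
      = lam x * (rho x * FS g (n + 2) (x, 0) + (n + 1) * n * k x * FS g n (x, 0)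
        - (if n = 0 then 1 else 0)) := fun x n =>
    pde_rec (A := fun m s => FS g m (x, s)) (B := fun m s => FX g m (x, s)) (hA x) (hB x)
      (by filter_upwards [hev x] with s hs using hpde x s hs) n
  have hlam : ∀ x, lam x ≠ 0 := fun x => (F.lam_pos x).ne'
  have hrho : ∀ x, rho x ≠ 0 := fun x => (F.rho_pos x).ne'
  have z0 : ∀ x, FS g 0 (x, 0) = 0 := fun x => by
    change f (p x + (0 : ℝ) • e x) = 0
    rw [zero_smul, add_zero]; exact f0 x
  have zx0 : ∀ x, FX g 0 (x, 0) = 0 := fun x => by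
    have h1 := FS_deriv_x hΩ hgs 0 (h0 x)
    have h2 : HasDerivAt (fun t => FS g 0 (t, (0 : ℝ))) 0 x := by
      have : (fun t => FS g 0 (t, (0 : ℝ))) = fun _ => 0 := funext z0
      rw [this]; exact hasDerivAt_const x 0
    exact h1.unique h2
  have z1 : ∀ x, FS g 1 (x, 0) = 0 := fun x => by
    have h1 := hpde x 0 (h0 x)
    rw [zx0 x] at h1
    have h2 : lam x * rho x * FS g 1 (x, 0) = 0 := by linear_combination -h1
    rcases mul_eq_zero.mp h2 with h | h
    · rcases mul_eq_zero.mp h with h | h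
      · exact absurd h (hlam x)
      · exact absurd h (hrho x)
    · exact h
  have zx1 : ∀ x, FX g 1 (x, 0) = 0 := fun x => by
    have h1 := FS_deriv_x hΩ hgs 1 (h0 x)
    have h2 : HasDerivAt (fun t => FS g 1 (t, (0 : ℝ))) 0 x := by
      have : (fun t => FS g 1 (t, (0 : ℝ))) = fun _ => 0 := funext z1
      rw [this]; exact hasDerivAt_const x 0
    exact h1.unique h2
  -- Taylor coefficients
  set G : ℕ → ℝ → ℝ := fun m x => FS g m (x, 0) / (m.factorial : ℝ) with hGdef
  set D : ℕ → ℝ → ℝ := fun m x => FX g m (x, 0) / (m.factorial : ℝ) / lam x with hDdef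
  have hGd : ∀ m x, HasDerivAt (G m) (lam x * D m x) x := fun m x => by
    have h1 := (FS_deriv_x hΩ hgs m (h0 x)).div_const (m.factorial : ℝ)
    have e1 : lam x * D m x = FX g m (x, 0) / (m.factorial : ℝ) := by
      simp only [hDdef]; field_simp [hlam x]
    rw [e1]; exact h1
  have a2 : ∀ x, 2 * rho x * G 2 x = 1 := fun x => by
    have h := hrec x 0
    simp only [Nat.cast_zero, zero_add, if_true, zx0 x, zx1 x] at h
    have h2 : lam x * (rho x * FS g 2 (x, 0) - 1) = 0 := by linear_combination -h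
    rcases mul_eq_zero.mp h2 with h | h
    · exact absurd h (hlam x)
    · simp only [hGdef, Nat.factorial]; push_cast; linarith
  have hFX : ∀ m x, FX g m (x, 0) = (m.factorial : ℝ) * (lam x * D m x) := fun m x => by
    have h1 : (m.factorial : ℝ) ≠ 0 := by positivity
    have h2 := hlam x
    simp only [hDdef]
    field_simp
  have hFS : ∀ m x, FS g m (x, 0) = (m.factorial : ℝ) * G m x := fun m x => by
    have h1 : (m.factorial : ℝ) ≠ 0 := by positivity
    simp only [hGdef]
    field_simp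
  have e1 : ∀ x, D 2 x = 3 * rho x * G 3 x := fun x => by
    have h := hrec x 1
    simp only [one_ne_zero, if_false, zx1 x, z1 x] at h
    rw [hFX, hFS] at h
    simp only [Nat.factorial] at h
    push_cast at h
    refine mul_left_cancel₀ (hlam x) ?_
    linear_combination h / 2
  have e2 : ∀ x, D 3 x + r x * D 2 x = 4 * rho x * G 4 x + 2 * k x * G 2 x := fun x => by
    have h := hrec x 2
    simp only [OfNat.ofNat_ne_zero, if_false] at h
    rw [hFX, hFX, hFS, hFS] at h
    simp only [Nat.factorial] at h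
    push_cast at h
    refine mul_left_cancel₀ (hlam x) ?_
    linear_combination h / 6
  have e3 : ∀ x, D 4 x + r x * D 3 x = 5 * rho x * G 5 x + 3 * k x * G 3 x := fun x => by
    have h := hrec x 3
    simp only [OfNat.ofNat_ne_zero, if_false] at h
    rw [hFX, hFX, hFS, hFS] at h
    simp only [Nat.factorial] at h
    push_cast at h
    refine mul_left_cancel₀ (hlam x) ?_
    linear_combination h / 24
  have e4 : ∀ x, D 5 x + r x * D 4 x = 6 * rho x * G 6 x + 4 * k x * G 4 x := fun x => by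
    have h := hrec x 4
    simp only [OfNat.ofNat_ne_zero, if_false] at h
    rw [hFX, hFX, hFS, hFS] at h
    simp only [Nat.factorial] at h
    push_cast at h
    refine mul_left_cancel₀ (hlam x) ?_
    linear_combination h / 120
  have e5 : ∀ x, D 6 x + r x * D 5 x = 7 * rho x * G 7 x + 5 * k x * G 5 x := fun x => by
    have h := hrec x 5
    simp only [OfNat.ofNat_ne_zero, if_false] at h
    rw [hFX, hFX, hFS, hFS] at h
    simp only [Nat.factorial] at h
    push_cast at h
    refine mul_left_cancel₀ (hlam x) ?_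
    linear_combination h / 720
  -- parity
  set c : ℝ → ℝ := fun x => -2 * rho x * G 3 x with hcdef
  have a3 : ∀ x, 2 * rho x * G 3 x = -c x := fun x => by simp only [hcdef]; ring
  have par : ∀ x, G 5 x = -2 * c x * G 4 x + c x ^ 3 * G 2 x ∧
      G 7 x = -3 * c x ^ 5 * G 2 x + 5 * c x ^ 3 * G 4 x - 3 * c x * G 6 x := fun x => by
    obtain ⟨c', hc'⟩ := proj x
    have hpar := parity7 (F := fun m s => FS g m (x, s)) (c := c') (hA x) (z1 x)
      (by
        filter_upwards [hc'] with s hs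
        change f (p x + s • e x) = f (p x + (-(s / (1 + c' * s))) • e x)
        rw [hs, neg_smul, sub_eq_add_neg]) (fun m => G m x) (fun m => rfl)
    obtain ⟨q3, q5, q7⟩ := hpar
    have hcc : c' = c x := by
      have h1 := a2 x
      have h2 := a3 x
      linear_combination (-c') * h1 + rho x * q3 - h2
    rw [hcc] at q3 q5 q7
    have g3 : G 3 x = -c x * G 2 x := by linear_combination q3 / 2
    have g5 : G 5 x = -2 * c x * G 4 x + c x ^ 3 * G 2 x := by
      rw [g3] at q5; linear_combination q5 / 2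
    refine ⟨g5, ?_⟩
    rw [g5, g3] at q7
    linear_combination q7 / 2
  -- derivatives
  set rho1 : ℝ → ℝ := fun x => deriv rho x / lam x with hrho1
  have hrd : ∀ x, HasDerivAt rho (lam x * rho1 x) x := fun x => by
    have h1 : HasDerivAt rho (deriv rho x) x :=
      ((F.sm_rho.differentiable (by simp)) x).hasDerivAt
    have e1 : lam x * rho1 x = deriv rho x := by
      simp only [hrho1]; field_simp [hlam x]
    rw [e1]; exact h1
  have b2 : ∀ x, 2 * rho1 x * G 2 x + 2 * rho x * D 2 x = 0 := fun x => by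
    have h1 := ((hrd x).const_mul 2).mul (hGd 2 x)
    have h2 : ((fun y => 2 * rho y) * G 2 : ℝ → ℝ) = fun _ => 1 := funext fun y => a2 y
    rw [h2] at h1
    have h3 := h1.unique (hasDerivAt_const x 1)
    have h4 : lam x * (2 * rho1 x * G 2 x + 2 * rho x * D 2 x) = 0 := by
      linear_combination h3
    exact (mul_eq_zero.mp h4).resolve_left (hlam x)
  have hr1 : ∀ x, rho1 x = 3 * rho x ^ 2 * c x := fun x => alg_rho (a2 x) (a3 x) (b2 x) (e1 x)
  set c1 : ℝ → ℝ := fun x => -2 * rho1 x * G 3 x - 2 * rho x * D 3 x with hc1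
  have hcd : ∀ x, HasDerivAt c (lam x * c1 x) x := fun x => by
    have h1 := ((hrd x).const_mul (-2)).mul (hGd 3 x)
    have e1 : lam x * c1 x = -2 * (lam x * rho1 x) * G 3 x + -2 * rho x * (lam x * D 3 x) := by
      simp only [hc1]; ring
    rw [e1]
    exact h1
  set W : ℝ → ℝ := fun x => 4 * rho x * c x ^ 2 - 8 * rho x ^ 2 * G 4 x with hWdef
  set W1 : ℝ → ℝ := fun x => 4 * rho1 x * c x ^ 2 + 8 * rho x * c x * c1 x
    - 16 * rho x * rho1 x * G 4 x - 8 * rho x ^ 2 * D 4 x with hW1def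
  have hWd : ∀ x, HasDerivAt W (lam x * W1 x) x := fun x => by
    have h1 := (((hrd x).const_mul 4).mul ((hcd x).pow 2)).sub
      ((((hrd x).pow 2).const_mul 8).mul (hGd 4 x))
    refine h1.congr_deriv ?_
    simp only [hW1def, Pi.pow_apply]
    push_cast
    ring
  set N : ℝ → ℝ := fun x => (12 * rho x ^ 2 * c x ^ 4 - 9 * rho x * c x ^ 2 * W x + W x ^ 2
    - 24 * rho x ^ 3 * G 6 x) / (2 * rho x) with hNdef
  set N1 : ℝ → ℝ := fun x => ((24 * rho x * rho1 x * c x ^ 4 + 48 * rho x ^ 2 * c x ^ 3 * c1 x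
    - 9 * rho1 x * c x ^ 2 * W x - 18 * rho x * c x * c1 x * W x - 9 * rho x * c x ^ 2 * W1 x
    + 2 * W x * W1 x - 72 * rho x ^ 2 * rho1 x * G 6 x - 24 * rho x ^ 3 * D 6 x)
    - 2 * rho1 x * N x) / (2 * rho x) with hN1def
  have hNd : ∀ x, HasDerivAt N (lam x * N1 x) x := fun x => by
    have h1 := (((((((hrd x).pow 2).const_mul 12).mul ((hcd x).pow 4)).sub
      ((((hrd x).const_mul 9).mul ((hcd x).pow 2)).mul (hWd x))).add ((hWd x).pow 2)).sub
      ((((hrd x).pow 3).const_mul 24).mul (hGd 6 x))).div ((hrd x).const_mul 2)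
      (by have := hrho x; positivity)
    refine h1.congr_deriv ?_
    have hr := hrho x
    simp only [hN1def, hNdef, Pi.pow_apply, Pi.add_apply, Pi.sub_apply, Pi.mul_apply]
    push_cast
    field_simp
    ring
  have a4 : ∀ x, 8 * rho x ^ 2 * G 4 x = 4 * rho x * c x ^ 2 - W x := fun x => by
    simp only [hWdef]; ring
  have a6 : ∀ x, 24 * rho x ^ 3 * G 6 x = 12 * rho x ^ 2 * c x ^ 4 - 9 * rho x * c x ^ 2 * W x
      + W x ^ 2 - 2 * rho x * N x := fun x => by
    have hr := hrho x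
    simp only [hNdef]; field_simp; ring
  have b5 : ∀ x, D 5 x = -2 * c1 x * G 4 x - 2 * c x * D 4 x + 3 * c x ^ 2 * c1 x * G 2 x
      + c x ^ 3 * D 2 x := fun x => by
    have h1 := hGd 5 x
    have h2 : G 5 = fun y => -2 * c y * G 4 y + c y ^ 3 * G 2 y := funext fun y => (par y).1
    rw [h2] at h1
    have h3 := (((hcd x).const_mul (-2)).mul (hGd 4 x)).add (((hcd x).pow 3).mul (hGd 2 x))
    have h4 := h1.unique h3
    have h5 : lam x * D 5 x = lam x * (-2 * c1 x * G 4 x - 2 * c x * D 4 x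
        + 3 * c x ^ 2 * c1 x * G 2 x + c x ^ 3 * D 2 x) := by
      rw [h4]
      simp only [Pi.pow_apply]
      push_cast
      ring
    exact mul_left_cancel₀ (hlam x) h5
  have hW : ∀ x, W x = c1 x + rho x * c x ^ 2 + 3 * rho x * r x * c x + 2 * k x := fun x => by
    refine alg_W (a2 x) (a3 x) (a4 x) ?_ ?_ (e2 x)
    · have := b2 x
      rw [hr1 x] at this
      exact this
    · simp only [hc1, hr1 x]
      ring
  have hall : ∀ x, W1 x = 4 * rho x * nn (rho x) (c x) (c1 x) (r x) (k x) ∧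
      N x = r x * nn (rho x) (c x) (c1 x) (r x) (k x) ∧
      N1 x = nn (rho x) (c x) (c1 x) (r x) (k x) * W x - 3 * rho x * c x * N x := fun x => by
    refine alg_main (hrho x) (hW x) (a2 x) (a3 x) (a4 x) (par x).1 (a6 x) (par x).2 ?_ ?_ ?_
      (b5 x) ?_ (e3 x) (e4 x) (e5 x)
    · have := b2 x
      rw [hr1 x] at this
      exact this
    · simp only [hc1, hr1 x]
      ring
    · simp only [hW1def, hr1 x]
      ring
    · have hr := hrho x
      simp only [hN1def, hr1 x]
      field_simp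
      ring
  refine ⟨c, c1, W, N, ?_, hcd, hW, ?_, fun x => (hall x).2.1, ?_⟩
  · intro x; rw [← hr1 x]; exact hrd x
  · intro x; rw [← (hall x).1]; exact hWd x
  · intro x; rw [← (hall x).2.2]; exact hNd x

end Pool.Agent.V5helper96.PJ
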