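import Pool.Agent.V5helper96.PJ.Const

/-!
# Projective involutions, step 9: the curve is an ellipse
-/

open Filter Topology Set

namespace Pool.Agent.V5helper96.PJ

variable {M : ℝ × ℝ →L[ℝ] ℝ × ℝ} {p e : ℝ → ℝ × ℝ} {lam rho r : ℝ → ℝ} {L : ℝ}
variable {c c1 W N : ℝ → ℝ}

/-- the quadratic form in the frame at `x` -/
noncomputable def QF (p e : ℝ → ℝ × ℝ) (rho0 d0 : ℝ) (x : ℝ) (y : ℝ × ℝ) : ℝ :=
  (dt (p x) y ^ 2 - rho0 * d0 * dt (e x) y ^ 2) / (-(rho0 * d0 ^ 3))

/-- the quadratic form with coefficients `a, b, k` -/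
def qf (a b k : ℝ) (y : ℝ × ℝ) : ℝ := a * y.1 ^ 2 + 2 * b * y.1 * y.2 + k * y.2 ^ 2

/-- its polar form -/
def bf (a b k : ℝ) (y z : ℝ × ℝ) : ℝ :=
  a * y.1 * z.1 + b * (y.1 * z.2 + y.2 * z.1) + k * y.2 * z.2

theorem ellipse (F : Frame M p e lam rho r L) (E : Eqs M p e lam rho r c c1 W N) :
    ∃ a b k : ℝ, 0 < a ∧ b ^ 2 < a * k ∧ (∀ y, qf a b k y = 1 ↔ ∃ x, p x = y) ∧
      (∀ y, bf a b k y (M y) = tr M / 2 * qf a b k y) := by
  obtain ⟨_, hrho, hr, hd, heta, hTd, hq⟩ := all_const F E
  set ρ := rho 0 with hρ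
  set s := r 0 with hs
  set d := dt (e 0) (p 0) with hd0
  have hρ0 : 0 < ρ := F.rho_pos 0
  have hdneg : d < 0 := F.d_neg 0
  have hdne : d ≠ 0 := hdneg.ne
  set m : ℝ := -(ρ * d) with hm
  have hm0 : 0 < m := by rw [hm]; nlinarith
  set k0 : ℝ := -(ρ * d ^ 3) with hk0
  have hk : 0 < k0 := by
    have : k0 = m * d ^ 2 := by rw [hk0, hm]; ring
    rw [this]; positivity
  -- `M p` in the frame
  have hMp : ∀ x, M (p x) = (-(1 / d)) • p x - (ρ * s) • e x := fun x => by
    have h1 := expand (F.nrm x) (p x)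
    rw [heta x, hd x] at h1
    have h2 : d • M (p x) = -(p x) - (ρ * s * d) • e x := by
      nth_rw 2 [h1]
      module
    have h3 : M (p x) = (1 / d) • (d • M (p x)) := by
      rw [smul_smul, one_div, inv_mul_cancel₀ hdne, one_smul]
    rw [h3, h2, smul_sub, smul_neg, smul_smul]
    have e1 : 1 / d * (ρ * s * d) = ρ * s := by field_simp
    rw [e1, neg_smul]
  have hde : ∀ x, HasDerivAt e ((lam x / d) • p x) x := fun x => by
    refine (F.de x).congr_deriv ?_
    rw [hMp x, hrho x, hr x]
    module
  have hdp : ∀ x, HasDerivAt p ((lam x * ρ) • e x) x := fun x => by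
    refine (F.dp x).congr_deriv ?_
    rw [hrho x, smul_smul]
  have hdt_p : ∀ (y : ℝ × ℝ) x, HasDerivAt (fun t => dt (p t) y) (lam x * ρ * dt (e x) y) x :=
    fun y x => by
    have := hasDeriv_dt (hdp x) (hasDerivAt_const x y)
    refine this.congr_deriv ?_
    rw [dt_smul_left]
    simp [dt]
  have hdt_e : ∀ (y : ℝ × ℝ) x, HasDerivAt (fun t => dt (e t) y) (lam x / d * dt (p x) y) x :=
    fun y x => by
    have := hasDeriv_dt (hde x) (hasDerivAt_const x y)
    refine this.congr_deriv ?_
    rw [dt_smul_left]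
    simp [dt]
  -- the form does not depend on `x`
  have hQc : ∀ y x, QF p e ρ d x y = QF p e ρ d 0 y := fun y x => by
    have hder : ∀ x, HasDerivAt (fun x => QF p e ρ d x y) 0 x := fun x => by
      have h1 := (((hdt_p y x).pow 2).sub (((hdt_e y x).pow 2).const_mul (ρ * d))).div_const
        (-(ρ * d ^ 3))
      refine h1.congr_deriv ?_
      push_cast
      field_simp
      ring
    exact is_const_of_deriv_eq_zero (fun x => (hder x).differentiableAt)
      (fun x => (hder x).deriv) x 0
  set a : ℝ := ((p 0).2 ^ 2 + m * (e 0).2 ^ 2) / k0 with ha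
  set b : ℝ := -((p 0).1 * (p 0).2 + m * ((e 0).1 * (e 0).2)) / k0 with hb
  set k : ℝ := ((p 0).1 ^ 2 + m * (e 0).1 ^ 2) / k0 with hkdef
  have hqQ : ∀ y, qf a b k y = QF p e ρ d 0 y := fun y => by
    simp only [qf, QF, ha, hb, hkdef, dt]
    rw [← hk0]
    field_simp
    ring
  have hdexp : (e 0).1 * (p 0).2 - (e 0).2 * (p 0).1 = d := rfl
  refine ⟨a, b, k, ?_, ?_, ?_, ?_⟩
  · rw [ha]
    refine div_pos ?_ hk
    by_contra hcon
    push Not at hcon
    have g1 : (p 0).2 ^ 2 = 0 := by nlinarith [sq_nonneg (p 0).2, mul_nonneg hm0.le (sq_nonneg (e 0).2)]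
    have g2 : m * (e 0).2 ^ 2 = 0 := by
      nlinarith [sq_nonneg (p 0).2, mul_nonneg hm0.le (sq_nonneg (e 0).2)]
    have g3 : (p 0).2 = 0 := by simpa using g1
    have g4 : (e 0).2 = 0 := by
      have := (mul_eq_zero.mp g2).resolve_left hm0.ne'
      simpa using this
    rw [g3, g4] at hdexp
    apply hdne
    rw [← hdexp]; ring
  · have e1 : a * k - b ^ 2 = m * d ^ 2 / k0 ^ 2 := by
      rw [ha, hb, hkdef, ← hdexp]
      field_simp
      ring
    have e2 : 0 < m * d ^ 2 / k0 ^ 2 := by positivity
    linarith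
  · intro y
    constructor
    · intro hy
      rw [hqQ] at hy
      have hall : ∀ x, dt (p x) y ^ 2 + m * dt (e x) y ^ 2 = k0 := fun x => by
        have h1 := hQc y x
        rw [hy] at h1
        simp only [QF] at h1
        rw [← hk0, div_eq_one_iff_eq hk.ne'] at h1
        rw [hm]; linarith
      -- extrema of `det(e, y)`
      have hucont : Continuous fun x => dt (e x) y := cont_of_deriv (hdt_e y)
      have huper : Function.Periodic (fun x => dt (e x) y) L := fun x => by
        simp only [F.per_e]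
      obtain ⟨xm, _, hmin⟩ := isCompact_Icc.exists_isMinOn (s := Icc (0 : ℝ) L)
        (nonempty_Icc.mpr F.L_pos.le) hucont.continuousOn
      obtain ⟨xM, _, hmax⟩ := isCompact_Icc.exists_isMaxOn (s := Icc (0 : ℝ) L)
        (nonempty_Icc.mpr F.L_pos.le) hucont.continuousOn
      have hmin' : ∀ x, dt (e xm) y ≤ dt (e x) y := fun x => by
        obtain ⟨t, ht, hxt⟩ := huper.exists_mem_Ico₀ F.L_pos x
        rw [hxt]; exact hmin ⟨ht.1, ht.2.le⟩
      have hmax' : ∀ x, dt (e x) y ≤ dt (e xM) y := fun x => by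
        obtain ⟨t, ht, hxt⟩ := huper.exists_mem_Ico₀ F.L_pos x
        rw [hxt]; exact hmax ⟨ht.1, ht.2.le⟩
      have hcrit : ∀ x, deriv (fun x => dt (e x) y) x = 0 →
          dt (p x) y = 0 ∧ (dt (e x) y = d ∨ dt (e x) y = -d) := fun x hx => by
        rw [(hdt_e y x).deriv] at hx
        have h1 : dt (p x) y = 0 := by
          have h2 : lam x / d ≠ 0 := div_ne_zero (F.lam_pos x).ne' hdne
          exact (mul_eq_zero.mp hx).resolve_left h2
        refine ⟨h1, ?_⟩
        have h2 := hall x
        rw [h1] at h2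
        have h3 : dt (e x) y ^ 2 = d ^ 2 := by
          have h4 : m * dt (e x) y ^ 2 = m * d ^ 2 := by
            rw [hk0] at h2
            rw [hm] at h2 ⊢
            linear_combination h2
          exact mul_left_cancel₀ hm0.ne' h4
        exact sq_eq_sq_iff_eq_or_eq_neg.mp h3
      have c1' := hcrit xm (show IsLocalMin (fun x => dt (e x) y) xm from
        Filter.Eventually.of_forall hmin').deriv_eq_zero
      have c2' := hcrit xM (show IsLocalMax (fun x => dt (e x) y) xM from
        Filter.Eventually.of_forall hmax').deriv_eq_zero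
      have hmind : dt (e xm) y = d := by
        rcases c1'.2 with h | h
        · exact h
        · exfalso
          have h1 : ∀ x, dt (e x) y = -d := fun x => by
            have g1 := hmin' x
            have g2 := hmax' x
            rcases c2'.2 with h' | h'
            · have g3 := hmin' xM
              rw [h, h'] at g3
              linarith
            · rw [h] at g1; rw [h'] at g2; linarith
          have h2 : ∀ x, dt (p x) y = 0 := fun x => by
            refine (hcrit x ?_).1
            have : (fun x => dt (e x) y) = fun _ => -d := funext h1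
            rw [this]; simp
          have h3 : HasDerivAt (fun t => dt (p t) y) 0 0 := by
            have : (fun t => dt (p t) y) = fun _ => 0 := funext h2
            rw [this]; exact hasDerivAt_const 0 _
          have h4 := (hdt_p y 0).unique h3
          rw [h1 0] at h4
          have h5 : 0 < lam 0 * ρ * (-d) :=
            mul_pos (mul_pos (F.lam_pos 0) hρ0) (by linarith)
          linarith
      refine ⟨xm, ?_⟩
      have e1 : (e xm).1 * (p xm).2 - (e xm).2 * (p xm).1 = d := hd xm
      have e2 : (e xm).1 * y.2 - (e xm).2 * y.1 = d := hmind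
      have e3 : (p xm).1 * y.2 - (p xm).2 * y.1 = 0 := c1'.1
      ext
      · refine mul_left_cancel₀ hdne ?_
        nth_rw 1 [← e2]
        rw [← e1]
        linear_combination (e xm).1 * e3
      · refine mul_left_cancel₀ hdne ?_
        nth_rw 1 [← e2]
        rw [← e1]
        linear_combination (e xm).2 * e3
    · rintro ⟨x, rfl⟩
      rw [hqQ, ← hQc _ x]
      simp only [QF]
      rw [dt_self, hd x]
      rw [hρ] at *
      field_simp
      ring
  · intro y
    have h1 : dt (p 0) (M y) = tr M * dt (p 0) y - dt (M (p 0)) y := by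
      have := dt_tr M (p 0) y; linarith
    have h2 : dt (e 0) (M y) = tr M * dt (e 0) y - dt (M (e 0)) y := by
      have := dt_tr M (e 0) y; linarith
    have h3 := F.Me 0
    rw [← hs] at h3
    have h4 := hMp 0
    have hqv : Frame.qq M p e 0 = tr M / 2 + ρ * s ^ 2 := by linarith
    have hT : tr M = -2 / d := by field_simp; linarith
    rw [h4, dt_sub_left, dt_smul_left, dt_smul_left] at h1
    rw [h3, h4, hqv, dt_add_left, dt_smul_left, dt_smul_left, dt_sub_left, dt_smul_left,
      dt_smul_left] at h2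
    have h5 : bf a b k y (M y)
        = (dt (p 0) y * dt (p 0) (M y) + m * (dt (e 0) y * dt (e 0) (M y))) / k0 := by
      simp only [bf, ha, hb, hkdef, dt]
      field_simp
      ring
    rw [h5, hqQ, h1, h2]
    simp only [QF]
    rw [← hk0, hm, hT]
    field_simp
    ring

end Pool.Agent.V5helper96.PJ
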