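import Pool.Agent.V5helper96.PJ.Data

/-!
# Projective involutions, step 6: the quartic on the tangent lines has no real zero

`Q4(x,s) = 2ρ(1+cs)² + Ws²(1+cs) + Ns⁴` is a relative invariant of a vector field on the space of
pairs (tangent line, point on it) which moves the point along the flow of `M`.  Minimising a
Lyapunov form over its zero set gives a contradiction.
-/

open Filter Topology Set

namespace Pool.Agent.V5helper96.PJ

/-- minimum principle along integral curves -/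
lemma min_contra {Y : ℝ × ℝ → ℝ × ℝ} {Q V φ w : ℝ × ℝ → ℝ} {z0 : ℝ × ℝ}
    (hY : ContDiffAt ℝ 1 Y z0) (hφ : ContinuousAt φ z0)
    (hQ : ∀ (α : ℝ → ℝ × ℝ) (t : ℝ), HasDerivAt α (Y (α t)) t →
      HasDerivAt (fun u => Q (α u)) (φ (α t) * Q (α t)) t)
    (hV : ∀ (α : ℝ → ℝ × ℝ) (t : ℝ), HasDerivAt α (Y (α t)) t →
      HasDerivAt (fun u => V (α u)) (w (α t)) t)
    (h0 : Q z0 = 0) (hw : w z0 < 0) (hmin : ∀ z, Q z = 0 → V z0 ≤ V z) : False := by
  obtain ⟨α, hα0, ε, hε, hα⟩ :=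
    hY.exists_forall_mem_closedBall_exists_eq_forall_mem_Ioo_hasDerivAt₀ 0
  have hαc : ContinuousAt α 0 := (hα 0 ⟨by linarith, by linarith⟩).continuousAt
  have hφc : ContinuousAt (fun t => φ (α t)) 0 := by
    have : ContinuousAt φ (α 0) := by rw [hα0]; exact hφ
    exact this.comp hαc
  have hbd : ∀ᶠ t in 𝓝 (0 : ℝ), |φ (α t)| ≤ |φ (α 0)| + 1 := by
    have h1 : ∀ᶠ t in 𝓝 (0 : ℝ), |φ (α t)| < |φ (α 0)| + 1 :=
      hφc.abs.eventually_lt continuousAt_const (by simp)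
    exact h1.mono fun t ht => ht.le
  obtain ⟨δ, hδ, hball⟩ := Metric.eventually_nhds_iff_ball.mp hbd
  set η := min ε δ / 2 with hη
  have hη0 : 0 < η := by positivity
  have hη1 : η < ε := by
    have : min ε δ ≤ ε := min_le_left _ _
    rw [hη]; linarith
  have hη2 : η < δ := by
    have : min ε δ ≤ δ := min_le_right _ _
    rw [hη]; linarith
  have hin : ∀ t ∈ Icc (0 : ℝ) η, t ∈ Ioo (0 - ε) (0 + ε) := fun t ht =>
    ⟨by linarith [ht.1], by linarith [ht.2]⟩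
  have hzero : ∀ t ∈ Icc (0 : ℝ) η, Q (α t) = 0 := by
    refine eq_zero_of_abs_deriv_le_mul_abs_self_of_eq_zero_right
      (f := fun t => Q (α t)) (f' := fun t => φ (α t) * Q (α t)) (K := |φ (α 0)| + 1) ?_ ?_ ?_ ?_
    · intro t ht
      exact (hQ α t (hα t (hin t ht))).continuousAt.continuousWithinAt
    · intro t ht
      exact (hQ α t (hα t (hin t ⟨ht.1, ht.2.le⟩))).hasDerivWithinAt
    · simp only [hα0, h0]
    · intro t ht
      rw [Real.norm_eq_abs, Real.norm_eq_abs, abs_mul]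
      refine mul_le_mul_of_nonneg_right ?_ (abs_nonneg _)
      refine hball t ?_
      rw [Metric.mem_ball, Real.dist_eq, sub_zero, abs_of_nonneg ht.1]
      linarith [ht.2]
  have hd : HasDerivAt (fun u => V (α u)) (w z0) 0 := by
    have := hV α 0 (hα 0 ⟨by linarith, by linarith⟩)
    rwa [hα0] at this
  have hsl := hasDerivAt_iff_tendsto_slope.mp hd
  have hsl2 : Tendsto (slope (fun u => V (α u)) 0) (𝓝[>] 0) (𝓝 (w z0)) :=
    hsl.mono_left (nhdsWithin_mono _ fun t ht => ne_of_gt ht)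
  have hge : 0 ≤ w z0 := by
    refine ge_of_tendsto hsl2 ?_
    have h1 : Ioc (0 : ℝ) η ∈ 𝓝[>] (0 : ℝ) := Ioc_mem_nhdsGT hη0
    filter_upwards [h1] with t ht
    rw [slope_def_field]
    have h2 : V z0 ≤ V (α t) := hmin _ (hzero t ⟨ht.1.le, ht.2⟩)
    have h3 : V (α 0) = V z0 := by rw [hα0]
    simp only [h3, sub_zero]
    exact div_nonneg (by linarith) ht.1.le
  linarith

/-- the Lyapunov form -/
noncomputable def VV (M : ℝ × ℝ →L[ℝ] ℝ × ℝ) (y : ℝ × ℝ) : ℝ :=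
  dM M * (y.1 ^ 2 + y.2 ^ 2) + ((M (0, 1)).2 * y.1 - (M (0, 1)).1 * y.2) ^ 2
    + (-(M (1, 0)).2 * y.1 + (M (1, 0)).1 * y.2) ^ 2

lemma VV_deriv (M : ℝ × ℝ →L[ℝ] ℝ × ℝ) {P : ℝ → ℝ × ℝ} {a t : ℝ}
    (h : HasDerivAt P (a • M (P t)) t) :
    HasDerivAt (fun u => VV M (P u)) (a * (2 * dM M * tr M * ((P t).1 ^ 2 + (P t).2 ^ 2))) t := by
  have h1 : HasDerivAt (fun u => (P u).1) (a * (M (P t)).1) t := h.fst
  have h2 : HasDerivAt (fun u => (P u).2) (a * (M (P t)).2) t := h.snd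
  have h3 := (((h1.pow 2).add (h2.pow 2)).const_mul (dM M)).add
    (((h1.const_mul (M (0, 1)).2).sub (h2.const_mul (M (0, 1)).1)).pow 2)
  have h4 := h3.add (((h1.const_mul (-(M (1, 0)).2)).add (h2.const_mul (M (1, 0)).1)).pow 2)
  refine h4.congr_deriv ?_
  have e := M_apply M (P t)
  have e1 : (M (P t)).1 = (P t).1 * (M (1, 0)).1 + (P t).2 * (M (0, 1)).1 := by rw [e]
  have e2 : (M (P t)).2 = (P t).1 * (M (1, 0)).2 + (P t).2 * (M (0, 1)).2 := by rw [e]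
  rw [e1, e2]
  simp only [Pi.sub_apply, Pi.add_apply, dM, tr, dt]
  push_cast
  ring

lemma VV_ge (M : ℝ × ℝ →L[ℝ] ℝ × ℝ) (y : ℝ × ℝ) : dM M * (y.1 ^ 2 + y.2 ^ 2) ≤ VV M y := by
  simp only [VV]
  nlinarith [sq_nonneg ((M (0, 1)).2 * y.1 - (M (0, 1)).1 * y.2),
    sq_nonneg (-(M (1, 0)).2 * y.1 + (M (1, 0)).1 * y.2)]

lemma VV_cont (M : ℝ × ℝ →L[ℝ] ℝ × ℝ) : Continuous (VV M) := by
  unfold VV; fun_prop

/-- the quartic -/
def Q4 (rho c W N : ℝ → ℝ) (z : ℝ × ℝ) : ℝ :=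
  2 * rho z.1 * (1 + c z.1 * z.2) ^ 2 + W z.1 * z.2 ^ 2 * (1 + c z.1 * z.2) + N z.1 * z.2 ^ 4

variable {M : ℝ × ℝ →L[ℝ] ℝ × ℝ} {p e : ℝ → ℝ × ℝ} {lam rho r : ℝ → ℝ} {L : ℝ}

/-- the structure equations -/
structure Eqs (M : ℝ × ℝ →L[ℝ] ℝ × ℝ) (p e : ℝ → ℝ × ℝ) (lam rho r c c1 W N : ℝ → ℝ) : Prop where
  d_rho : ∀ x, HasDerivAt rho (lam x * (3 * rho x ^ 2 * c x)) x
  d_c : ∀ x, HasDerivAt c (lam x * c1 x) x
  W_eq : ∀ x, W x = c1 x + rho x * c x ^ 2 + 3 * rho x * r x * c x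
        + 2 * Frame.kk M p e rho r x
  d_W : ∀ x, HasDerivAt W (lam x * (4 * rho x *
        nn (rho x) (c x) (c1 x) (r x) (Frame.kk M p e rho r x))) x
  N_eq : ∀ x, N x = r x * nn (rho x) (c x) (c1 x) (r x) (Frame.kk M p e rho r x)
  d_N : ∀ x, HasDerivAt N (lam x * (nn (rho x) (c x) (c1 x) (r x) (Frame.kk M p e rho r x) * W x
        - 3 * rho x * c x * N x)) x

lemma Frame.sm_r (F : Frame M p e lam rho r L) : ContDiff ℝ (⊤ : ℕ∞) r := by
  have e1 : r = fun t => -dt (e t) (M (e t)) := funext F.r_def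
  rw [e1]
  have h1 : ContDiff ℝ (⊤ : ℕ∞) (fun t => M (e t)) := M.contDiff.comp F.sm_e
  exact ((F.sm_e.fst.mul h1.snd).sub (F.sm_e.snd.mul h1.fst)).neg

lemma Frame.sm_k (F : Frame M p e lam rho r L) : ContDiff ℝ (⊤ : ℕ∞) (Frame.kk M p e rho r) := by
  have h1 : ContDiff ℝ (⊤ : ℕ∞) (fun t => dt (e t) (p t)) :=
    (F.sm_e.fst.mul F.sm_p.snd).sub (F.sm_e.snd.mul F.sm_p.fst)
  exact (contDiff_const.mul h1).neg.sub (F.sm_rho.mul (F.sm_r.pow 2))

/-- the vector field, `σ = ±1` -/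
noncomputable def YY (M : ℝ × ℝ →L[ℝ] ℝ × ℝ) (p e : ℝ → ℝ × ℝ) (lam rho r : ℝ → ℝ) (σ : ℝ)
    (z : ℝ × ℝ) : ℝ × ℝ :=
  (σ * ((1 + r z.1 * z.2) / lam z.1), -(σ * (rho z.1 + Frame.kk M p e rho r z.1 * z.2 ^ 2)))

lemma YY_smooth (F : Frame M p e lam rho r L) (σ : ℝ) :
    ContDiff ℝ (⊤ : ℕ∞) (YY M p e lam rho r σ) := by
  have h1 : ContDiff ℝ (⊤ : ℕ∞) (fun z : ℝ × ℝ => σ * ((1 + r z.1 * z.2) / lam z.1)) := by
    refine contDiff_const.mul (ContDiff.div ?_ (F.sm_lam.comp contDiff_fst)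
      fun z => (F.lam_pos z.1).ne')
    exact contDiff_const.add ((F.sm_r.comp contDiff_fst).mul contDiff_snd)
  have h2 : ContDiff ℝ (⊤ : ℕ∞) (fun z : ℝ × ℝ =>
      -(σ * (rho z.1 + Frame.kk M p e rho r z.1 * z.2 ^ 2))) := by
    refine (contDiff_const.mul ((F.sm_rho.comp contDiff_fst).add ?_)).neg
    exact (F.sm_k.comp contDiff_fst).mul (contDiff_snd.pow 2)
  exact h1.prodMk h2

lemma Q4_flow (F : Frame M p e lam rho r L) {c c1 W N : ℝ → ℝ} (E : Eqs M p e lam rho r c c1 W N)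
    (σ : ℝ) (α : ℝ → ℝ × ℝ) (t : ℝ) (h : HasDerivAt α (YY M p e lam rho r σ (α t)) t) :
    HasDerivAt (fun u => Q4 rho c W N (α u))
      (σ * (rho (α t).1 * c (α t).1 + (rho (α t).1 * c (α t).1 ^ 2 + c1 (α t).1
        - 2 * Frame.kk M p e rho r (α t).1) * (α t).2) * Q4 rho c W N (α t)) t := by
  have hx : HasDerivAt (fun u => (α u).1)
      (σ * ((1 + r (α t).1 * (α t).2) / lam (α t).1)) t := h.fst
  have hs : HasDerivAt (fun u => (α u).2)
      (-(σ * (rho (α t).1 + Frame.kk M p e rho r (α t).1 * (α t).2 ^ 2))) t := h.snd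
  have h1 := (E.d_rho (α t).1).comp t hx
  have h2 := (E.d_c (α t).1).comp t hx
  have h3 := (E.d_W (α t).1).comp t hx
  have h4 := (E.d_N (α t).1).comp t hx
  have hl := (F.lam_pos (α t).1).ne'
  have a1 := (h2.mul hs).const_add 1
  have a2 := ((h1.const_mul 2).mul (a1.pow 2)).add ((h3.mul (hs.pow 2)).mul a1)
  have a3 := a2.add (h4.mul (hs.pow 4))
  refine a3.congr_deriv ?_
  simp only [Function.comp, Pi.mul_apply, Pi.pow_apply, Q4]
  rw [E.N_eq, E.W_eq]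
  simp only [nn]
  push_cast
  field_simp
  ring

lemma P_flow (F : Frame M p e lam rho r L)
    (σ : ℝ) (α : ℝ → ℝ × ℝ) (t : ℝ) (h : HasDerivAt α (YY M p e lam rho r σ (α t)) t) :
    HasDerivAt (fun u => p (α u).1 + (α u).2 • e (α u).1)
      ((-(σ * (α t).2)) • M (p (α t).1 + (α t).2 • e (α t).1)) t := by
  have hx : HasDerivAt (fun u => (α u).1)
      (σ * ((1 + r (α t).1 * (α t).2) / lam (α t).1)) t := h.fst
  have hs : HasDerivAt (fun u => (α u).2)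
      (-(σ * (rho (α t).1 + Frame.kk M p e rho r (α t).1 * (α t).2 ^ 2))) t := h.snd
  have h1 := (F.dp (α t).1).scomp t hx
  have h2 := (F.de (α t).1).scomp t hx
  have h3 := h1.add (hs.smul h2)
  refine h3.congr_deriv ?_
  have ht := F.transport (α t).1 (α t).2
  have hl := (F.lam_pos (α t).1).ne'
  have h4 : (σ * ((1 + r (α t).1 * (α t).2) / lam (α t).1)) •
      (lam (α t).1 • (rho (α t).1 • e (α t).1) + (α t).2 •
        (lam (α t).1 • (-(rho (α t).1 * r (α t).1) • e (α t).1 - M (p (α t).1))))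
      = σ • ((rho (α t).1 + Frame.kk M p e rho r (α t).1 * (α t).2 ^ 2) • e (α t).1
        - (α t).2 • M (p (α t).1 + (α t).2 • e (α t).1)) := by
    have e1 : σ * ((1 + r (α t).1 * (α t).2) / lam (α t).1)
        = (σ * (lam (α t).1)⁻¹) * (1 + r (α t).1 * (α t).2) := by
      rw [div_eq_mul_inv]; ring
    rw [e1, mul_smul, ht, smul_smul]
    congr 1
    field_simp
  have h5 : (σ * ((1 + r (α t).1 * (α t).2) / lam (α t).1)) •
      (lam (α t).1 • (rho (α t).1 • e (α t).1))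
      + (α t).2 • ((σ * ((1 + r (α t).1 * (α t).2) / lam (α t).1)) •
        (lam (α t).1 • (-(rho (α t).1 * r (α t).1) • e (α t).1 - M (p (α t).1))))
      = σ • ((rho (α t).1 + Frame.kk M p e rho r (α t).1 * (α t).2 ^ 2) • e (α t).1
        - (α t).2 • M (p (α t).1 + (α t).2 • e (α t).1)) := by
    rw [← h4, smul_add]
    congr 1
    rw [smul_comm]
  have h6 : (-(σ * (α t).2)) • M (p (α t).1 + (α t).2 • e (α t).1)
      = σ • ((rho (α t).1 + Frame.kk M p e rho r (α t).1 * (α t).2 ^ 2) • e (α t).1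
        - (α t).2 • M (p (α t).1 + (α t).2 • e (α t).1))
        + (-(σ * (rho (α t).1 + Frame.kk M p e rho r (α t).1 * (α t).2 ^ 2))) • e (α t).1 := by
    module
  rw [h6, ← h5]
  simp only [Function.comp]
  module

end Pool.Agent.V5helper96.PJ
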