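import Pool.Agent.V5helper96.PJ.Mixed

/-!
# Projective involutions, step 3: the adapted frame

`Frame` collects the moving frame `(e, Mp)` of a closed curve `p` whose images under the flow
`exp(tM)` are the leaves, in the normalisation `det(e, Mp) = -1`, `Dp = ρ e`,
`De = -ρ r e - M p`, where `D = (1/λ) d/dx`.
-/

open Filter Topology Asymptotics

namespace Pool.Agent.V5helper96.PJ

/-- determinant of two plane vectors -/
def dt (u w : ℝ × ℝ) : ℝ := u.1 * w.2 - u.2 * w.1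

/-- trace of a linear map of the plane -/
noncomputable def tr (M : ℝ × ℝ →L[ℝ] ℝ × ℝ) : ℝ := (M (1, 0)).1 + (M (0, 1)).2

/-- determinant of a linear map of the plane -/
noncomputable def dM (M : ℝ × ℝ →L[ℝ] ℝ × ℝ) : ℝ := dt (M (1, 0)) (M (0, 1))

lemma M_apply (M : ℝ × ℝ →L[ℝ] ℝ × ℝ) (u : ℝ × ℝ) :
    M u = (u.1 * (M (1, 0)).1 + u.2 * (M (0, 1)).1, u.1 * (M (1, 0)).2 + u.2 * (M (0, 1)).2) := by
  have h : u = u.1 • ((1, 0) : ℝ × ℝ) + u.2 • ((0, 1) : ℝ × ℝ) := by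
    ext <;> simp
  conv_lhs => rw [h]
  rw [map_add, map_smul, map_smul]
  ext <;> simp

lemma dt_tr (M : ℝ × ℝ →L[ℝ] ℝ × ℝ) (u w : ℝ × ℝ) :
    dt (M u) w + dt u (M w) = tr M * dt u w := by
  rw [M_apply M u, M_apply M w]
  simp only [dt, tr]
  ring

lemma dt_dM (M : ℝ × ℝ →L[ℝ] ℝ × ℝ) (u w : ℝ × ℝ) :
    dt (M u) (M w) = dM M * dt u w := by
  rw [M_apply M u, M_apply M w]
  simp only [dt, dM]
  ring

lemma cayley (M : ℝ × ℝ →L[ℝ] ℝ × ℝ) (u : ℝ × ℝ) :
    M (M u) = tr M • M u - dM M • u := by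
  have h := M_apply M (M u)
  rw [M_apply M u] at h ⊢
  rw [h]
  simp only [dt, dM, tr]
  ext <;> simp <;> ring

lemma dt_smul_left (a : ℝ) (u w : ℝ × ℝ) : dt (a • u) w = a * dt u w := by
  simp only [dt, Prod.smul_fst, Prod.smul_snd, smul_eq_mul]; ring

lemma dt_smul_right (a : ℝ) (u w : ℝ × ℝ) : dt u (a • w) = a * dt u w := by
  simp only [dt, Prod.smul_fst, Prod.smul_snd, smul_eq_mul]; ring

lemma dt_add_left (u v w : ℝ × ℝ) : dt (u + v) w = dt u w + dt v w := by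
  simp only [dt, Prod.fst_add, Prod.snd_add]; ring

lemma dt_add_right (u v w : ℝ × ℝ) : dt u (v + w) = dt u v + dt u w := by
  simp only [dt, Prod.fst_add, Prod.snd_add]; ring

lemma dt_sub_left (u v w : ℝ × ℝ) : dt (u - v) w = dt u w - dt v w := by
  simp only [dt, Prod.fst_sub, Prod.snd_sub]; ring

lemma dt_sub_right (u v w : ℝ × ℝ) : dt u (v - w) = dt u v - dt u w := by
  simp only [dt, Prod.fst_sub, Prod.snd_sub]; ring

lemma dt_self (u : ℝ × ℝ) : dt u u = 0 := by simp only [dt]; ring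

lemma dt_swap (u w : ℝ × ℝ) : dt u w = -dt w u := by simp only [dt]; ring

lemma hasDeriv_dt {u w : ℝ → ℝ × ℝ} {u' w' : ℝ × ℝ} {x : ℝ} (hu : HasDerivAt u u' x)
    (hw : HasDerivAt w w' x) :
    HasDerivAt (fun t => dt (u t) (w t)) (dt u' (w x) + dt (u x) w') x := by
  have u1 : HasDerivAt (fun t => (u t).1) u'.1 x := hu.fst
  have u2 : HasDerivAt (fun t => (u t).2) u'.2 x := hu.snd
  have w1 : HasDerivAt (fun t => (w t).1) w'.1 x := hw.fst
  have w2 : HasDerivAt (fun t => (w t).2) w'.2 x := hw.snd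
  have h := (u1.mul w2).sub (u2.mul w1)
  have e1 : dt u' (w x) + dt (u x) w' = u'.1 * (w x).2 + (u x).1 * w'.2
      - (u'.2 * (w x).1 + (u x).2 * w'.1) := by
    simp only [dt]; ring
  rw [e1]
  exact h

/-- expansion in a basis of determinant `-1` -/
lemma expand {e m : ℝ × ℝ} (h : dt e m = -1) (w : ℝ × ℝ) :
    w = (-dt w m) • e + (-dt e w) • m := by
  simp only [dt] at h
  ext
  · simp only [dt, Prod.fst_add, Prod.smul_fst, smul_eq_mul]
    linear_combination w.1 * h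
  · simp only [dt, Prod.snd_add, Prod.smul_snd, smul_eq_mul]
    linear_combination w.2 * h

/-- the adapted moving frame -/
structure Frame (M : ℝ × ℝ →L[ℝ] ℝ × ℝ) (p e : ℝ → ℝ × ℝ) (lam rho r : ℝ → ℝ) (L : ℝ) :
    Prop where
  L_pos : 0 < L
  per_p : ∀ x, p (x + L) = p x
  per_e : ∀ x, e (x + L) = e x
  per_lam : ∀ x, lam (x + L) = lam x
  per_rho : ∀ x, rho (x + L) = rho x
  sm_p : ContDiff ℝ (⊤ : ℕ∞) p
  sm_e : ContDiff ℝ (⊤ : ℕ∞) e
  sm_lam : ContDiff ℝ (⊤ : ℕ∞) lam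
  sm_rho : ContDiff ℝ (⊤ : ℕ∞) rho
  lam_pos : ∀ x, 0 < lam x
  rho_pos : ∀ x, 0 < rho x
  dp : ∀ x, HasDerivAt p (lam x • (rho x • e x)) x
  de : ∀ x, HasDerivAt e (lam x • (-(rho x * r x) • e x - M (p x))) x
  nrm : ∀ x, dt (e x) (M (p x)) = -1
  r_def : ∀ x, r x = -dt (e x) (M (e x))
  d_neg : ∀ x, dt (e x) (p x) < 0

namespace Frame

variable {M : ℝ × ℝ →L[ℝ] ℝ × ℝ} {p e : ℝ → ℝ × ℝ} {lam rho r : ℝ → ℝ} {L : ℝ}

/-- `d = det(e, p)` -/
noncomputable def dd (p e : ℝ → ℝ × ℝ) (x : ℝ) : ℝ := dt (e x) (p x)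

/-- `q = -det M · det(e, p)` -/
noncomputable def qq (M : ℝ × ℝ →L[ℝ] ℝ × ℝ) (p e : ℝ → ℝ × ℝ) (x : ℝ) : ℝ :=
  -(dM M * dt (e x) (p x))

/-- `k = q - ρ r²` -/
noncomputable def kk (M : ℝ × ℝ →L[ℝ] ℝ × ℝ) (p e : ℝ → ℝ × ℝ) (rho r : ℝ → ℝ) (x : ℝ) : ℝ :=
  qq M p e x - rho x * r x ^ 2

lemma Me (F : Frame M p e lam rho r L) (x : ℝ) :
    M (e x) = qq M p e x • e x + r x • M (p x) := by
  have h := expand (F.nrm x) (M (e x))
  rw [dt_dM, ← F.r_def x] at h
  exact h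

lemma d_r (F : Frame M p e lam rho r L) (x : ℝ) :
    HasDerivAt r (lam x * (-2 * rho x * r x ^ 2 - tr M + 2 * qq M p e x)) x := by
  have h1 := F.de x
  have h2 : HasDerivAt (fun t => M (e t)) (M (lam x • (-(rho x * r x) • e x - M (p x)))) x :=
    M.hasFDerivAt.comp_hasDerivAt x h1
  have h3 : HasDerivAt (fun t => -dt (e t) (M (e t)))
      (-(dt (lam x • (-(rho x * r x) • e x - M (p x))) (M (e x))
        + dt (e x) (M (lam x • (-(rho x * r x) • e x - M (p x)))))) x :=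
    (hasDeriv_dt h1 h2).neg
  have e1 : r = fun t => -dt (e t) (M (e t)) := funext F.r_def
  rw [← e1] at h3
  have n1 := F.nrm x
  have t1 := dt_dM M (e x) (p x)
  have t2 := cayley M (p x)
  have t4 : dt (M (p x)) (M (e x)) = -(dM M * dt (e x) (p x)) := by rw [dt_swap, t1]
  have r2 : dt (e x) (M (e x)) = -r x := by rw [F.r_def x]; ring
  have e2 : lam x * (-2 * rho x * r x ^ 2 - tr M + 2 * qq M p e x)
      = -(dt (lam x • (-(rho x * r x) • e x - M (p x))) (M (e x))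
        + dt (e x) (M (lam x • (-(rho x * r x) • e x - M (p x))))) := by
    simp only [map_smul, map_sub, t2, dt_smul_left, dt_smul_right, dt_sub_left, dt_sub_right, t4,
      n1, qq, r2]
    ring
  rw [e2]
  exact h3

lemma d_d (F : Frame M p e lam rho r L) (x : ℝ) :
    HasDerivAt (dd p e) (lam x * (-(rho x * r x) * dd p e x + dt (p x) (M (p x)))) x := by
  have h3 := hasDeriv_dt (F.de x) (F.dp x)
  have e1 : lam x * (-(rho x * r x) * dd p e x + dt (p x) (M (p x)))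
      = dt (lam x • (-(rho x * r x) • e x - M (p x))) (p x)
        + dt (e x) (lam x • (rho x • e x)) := by
    simp only [dd, dt_smul_left, dt_smul_right, dt_sub_left, dt_self]
    rw [dt_swap (M (p x)) (p x)]
    ring
  rw [e1]
  exact h3

lemma d_eta (F : Frame M p e lam rho r L) (x : ℝ) :
    HasDerivAt (fun t => dt (p t) (M (p t))) (lam x * (-(rho x) * (2 + tr M * dd p e x))) x := by
  have h2 : HasDerivAt (fun t => M (p t)) (M (lam x • (rho x • e x))) x :=
    M.hasFDerivAt.comp_hasDerivAt x (F.dp x)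
  have h3 := hasDeriv_dt (F.dp x) h2
  have n1 := F.nrm x
  have t := dt_tr M (p x) (e x)
  have t2 : dt (M (p x)) (e x) = 1 := by rw [dt_swap, n1]; ring
  have t3 : dt (p x) (e x) = -dt (e x) (p x) := dt_swap _ _
  have t4 : dt (p x) (M (e x)) = -(tr M * dt (e x) (p x)) - 1 := by
    rw [t2, t3] at t; linarith
  have e1 : lam x * (-(rho x) * (2 + tr M * dd p e x))
      = dt (lam x • (rho x • e x)) (M (p x)) + dt (p x) (M (lam x • (rho x • e x))) := by
    simp only [map_smul, dt_smul_left, dt_smul_right, n1, t4, dd]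
    ring
  rw [e1]
  exact h3

/-- the vector identity behind the transport equation -/
lemma transport (F : Frame M p e lam rho r L) (x s : ℝ) :
    (1 + r x * s) • (lam x • (rho x • e x) + s • (lam x • (-(rho x * r x) • e x - M (p x))))
      = lam x • ((rho x + kk M p e rho r x * s ^ 2) • e x - s • M (p x + s • e x)) := by
  have h := F.Me x
  rw [map_add, map_smul, h]
  simp only [kk]
  ext
  · simp only [Prod.fst_add, Prod.fst_sub, Prod.smul_fst, Prod.fst_neg, smul_eq_mul, neg_smul]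
    ring
  · simp only [Prod.snd_add, Prod.snd_sub, Prod.smul_snd, Prod.snd_neg, smul_eq_mul, neg_smul]
    ring

end Frame

end Pool.Agent.V5helper96.PJ
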