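import Mathlib

/-!
# Projective involutions, step 1: jets of order 7

`coeffs_zero`: a polynomial of degree at most `n` which is `o(s^n)` vanishes.
`taylor_family`: Taylor expansion of a function given with all its derivatives.
`parity7`: if `F(s) = F(-s/(1+cs))` near `0` then the odd Taylor coefficients up to order 7
are determined by the even ones.
-/

open Filter Topology Asymptotics

namespace Pool.Agent.V5helper96.PJ

lemma coeffs_zero (n : ℕ) : ∀ a : ℕ → ℝ,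
    (fun s : ℝ => ∑ k ∈ Finset.range (n + 1), a k * s ^ k) =o[𝓝[≠] 0] (fun s : ℝ => s ^ n) →
    ∀ k ≤ n, a k = 0 := by
  induction n with
  | zero =>
    intro a h k hk
    obtain rfl : k = 0 := by omega
    have h1 : Tendsto (fun s : ℝ => ∑ k ∈ Finset.range (0 + 1), a k * s ^ k)
        (𝓝[≠] 0) (𝓝 0) := by
      have : (fun s : ℝ => s ^ 0) = fun _ => (1 : ℝ) := by funext s; simp
      rw [this] at h
      exact (isLittleO_one_iff ℝ).mp h
    have h2 : Tendsto (fun s : ℝ => ∑ k ∈ Finset.range (0 + 1), a k * s ^ k)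
        (𝓝[≠] 0) (𝓝 (a 0)) := by
      simp
    exact tendsto_nhds_unique h2 h1
  | succ n ih =>
    intro a h
    have h0 : a 0 = 0 := by
      have h1 : Tendsto (fun s : ℝ => ∑ k ∈ Finset.range (n + 1 + 1), a k * s ^ k)
          (𝓝[≠] 0) (𝓝 0) := by
        refine h.trans_tendsto ?_
        have : Tendsto (fun s : ℝ => s ^ (n + 1)) (𝓝 0) (𝓝 (0 ^ (n + 1))) :=
          (continuous_pow (n + 1)).tendsto 0
        rw [zero_pow (Nat.succ_ne_zero n)] at this
        exact this.mono_left nhdsWithin_le_nhds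
      have h2 : Tendsto (fun s : ℝ => ∑ k ∈ Finset.range (n + 1 + 1), a k * s ^ k) (𝓝[≠] 0)
          (𝓝 (∑ k ∈ Finset.range (n + 1 + 1), a k * (0 : ℝ) ^ k)) := by
        refine Tendsto.mono_left ?_ nhdsWithin_le_nhds
        exact Continuous.tendsto (by fun_prop) 0
      have h3 := tendsto_nhds_unique h2 h1
      rw [Finset.sum_range_succ'] at h3
      simpa using h3
    have h4 : (fun s : ℝ => ∑ k ∈ Finset.range (n + 1), a (k + 1) * s ^ k) =o[𝓝[≠] 0]
        (fun s : ℝ => s ^ n) := by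
      have h5 : (fun s : ℝ => s⁻¹ * ∑ k ∈ Finset.range (n + 1 + 1), a k * s ^ k) =o[𝓝[≠] 0]
          (fun s : ℝ => s⁻¹ * s ^ (n + 1)) :=
        (isBigO_refl _ _).mul_isLittleO h
      refine h5.congr' ?_ ?_
      · filter_upwards [self_mem_nhdsWithin] with s hs
        have hs' : s ≠ 0 := hs
        rw [Finset.sum_range_succ', h0]
        simp only [pow_zero, mul_one, add_zero]
        rw [Finset.mul_sum]
        refine Finset.sum_congr rfl fun k _ => ?_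
        rw [pow_succ]
        field_simp
      · filter_upwards [self_mem_nhdsWithin] with s hs
        have hs' : s ≠ 0 := hs
        rw [pow_succ]
        field_simp
    have h6 := ih (fun k => a (k + 1)) h4
    intro k hk
    rcases k with _ | k
    · exact h0
    · exact h6 k (by omega)

lemma taylor_family (n : ℕ) : ∀ F : ℕ → ℝ → ℝ,
    (∀ m, ∀ᶠ s in 𝓝 (0 : ℝ), HasDerivAt (F m) (F (m + 1) s) s) →
    (fun s : ℝ => F 0 s - ∑ k ∈ Finset.range (n + 1), F k 0 / (k.factorial : ℝ) * s ^ k)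
      =o[𝓝 0] (fun s : ℝ => s ^ n) := by
  induction n with
  | zero =>
    intro F hF
    have hc : ContinuousAt (F 0) 0 := (hF 0).self_of_nhds.continuousAt
    have : (fun s : ℝ => s ^ 0) = fun _ => (1 : ℝ) := by funext s; simp
    rw [this, isLittleO_one_iff]
    have h2 : Tendsto (fun s => F 0 s - F 0 0) (𝓝 0) (𝓝 (F 0 0 - F 0 0)) :=
      hc.tendsto.sub_const _
    simpa using h2
  | succ n ih =>
    intro F hF
    have h1 := ih (fun m => F (m + 1)) (fun m => hF (m + 1))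
    simp only [zero_add] at h1
    obtain ⟨ε, hε, hball⟩ := Metric.eventually_nhds_iff_ball.mp (hF 0)
    set φ : ℝ → ℝ := fun s => F 0 s - ∑ k ∈ Finset.range (n + 1 + 1),
      F k 0 / (k.factorial : ℝ) * s ^ k with hφ
    set ψ : ℝ → ℝ := fun s => F 1 s - ∑ k ∈ Finset.range (n + 1),
      F (k + 1) 0 / (k.factorial : ℝ) * s ^ k with hψ
    have hd : ∀ s ∈ Metric.ball (0 : ℝ) ε, HasDerivAt φ (ψ s) s := by
      intro s hs
      have a1 : HasDerivAt (F 0) (F 1 s) s := by simpa using hball s hs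
      have a2 : HasDerivAt (fun s : ℝ => ∑ k ∈ Finset.range (n + 1),
          F (k + 1) 0 / ((k + 1).factorial : ℝ) * s ^ (k + 1))
          (∑ k ∈ Finset.range (n + 1), F (k + 1) 0 / ((k + 1).factorial : ℝ) *
            (((k + 1 : ℕ) : ℝ) * s ^ k)) s := by
        refine HasDerivAt.fun_sum fun k _ => ?_
        have := (hasDerivAt_pow (k + 1) s).const_mul (F (k + 1) 0 / ((k + 1).factorial : ℝ))
        simpa using this
      have a3 := a1.sub (a2.add_const (F 0 0))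
      have e1 : φ = (F 0 - fun s : ℝ => (∑ k ∈ Finset.range (n + 1),
          F (k + 1) 0 / ((k + 1).factorial : ℝ) * s ^ (k + 1)) + F 0 0) := by
        funext t
        simp only [hφ, Pi.sub_apply]
        rw [Finset.sum_range_succ']
        simp
      have e2 : ψ s = F 1 s - (∑ k ∈ Finset.range (n + 1),
          F (k + 1) 0 / ((k + 1).factorial : ℝ) * (((k + 1 : ℕ) : ℝ) * s ^ k)) := by
        simp only [hψ]
        congr 1
        refine Finset.sum_congr rfl fun k _ => ?_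
        rw [Nat.factorial_succ]
        have : (k.factorial : ℝ) ≠ 0 := by positivity
        push_cast
        field_simp
      rw [e1, e2]
      exact a3
    have hφ0 : φ 0 = 0 := by
      simp only [hφ]
      rw [Finset.sum_range_succ']
      simp
    have hb : Metric.ball (0 : ℝ) ε ∈ 𝓝 (0 : ℝ) := Metric.ball_mem_nhds _ hε
    have h2 := Convex.isLittleO_pow_succ_real (n := n) (f := φ) (f' := ψ)
      (convex_ball (0 : ℝ) ε) (Metric.mem_ball_self hε)
      (fun s hs => (hd s hs).hasDerivWithinAt) (by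
        rw [nhdsWithin_eq_nhds.mpr hb]
        simpa using h1)
    rw [nhdsWithin_eq_nhds.mpr hb] at h2
    simpa [hφ0] using h2

lemma parity7 {F : ℕ → ℝ → ℝ} {c : ℝ}
    (hF : ∀ m, ∀ᶠ s in 𝓝 (0 : ℝ), HasDerivAt (F m) (F (m + 1) s) s)
    (h1 : F 1 0 = 0)
    (hc : ∀ᶠ s in 𝓝 (0 : ℝ), F 0 s = F 0 (-(s / (1 + c * s))))
    (G : ℕ → ℝ) (hG : ∀ k, G k = F k 0 / (k.factorial : ℝ)) :
    2 * c * G 2 + 2 * G 3 = 0 ∧
    25 * c ^ 3 * G 2 + 27 * c ^ 2 * G 3 + 4 * c * G 4 + 2 * G 5 = 0 ∧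
    20 * c ^ 5 * G 2 + 36 * c ^ 4 * G 3 + 34 * c ^ 3 * G 4 + 22 * c ^ 2 * G 5
      + 6 * c * G 6 + 2 * G 7 = 0 := by
  have hT := taylor_family 7 F hF
  simp only [← hG] at hT
  have hG1 : G 1 = 0 := by rw [hG, h1]; simp
  set T : ℝ → ℝ := fun s => ∑ k ∈ Finset.range (7 + 1), G k * s ^ k with hTdef
  have hlin : Tendsto (fun s : ℝ => 1 + c * s) (𝓝 0) (𝓝 1) := by
    have : Tendsto (fun s : ℝ => 1 + c * s) (𝓝 0) (𝓝 (1 + c * 0)) :=
      Continuous.tendsto (by fun_prop) 0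
    simpa using this
  have hne : ∀ᶠ s in 𝓝 (0 : ℝ), 1 + c * s ≠ 0 := hlin.eventually_ne one_ne_zero
  have hinv : Tendsto (fun s : ℝ => (1 + c * s)⁻¹) (𝓝 0) (𝓝 1) := by
    simpa using hlin.inv₀ one_ne_zero
  have hst : Tendsto (fun s : ℝ => -(s / (1 + c * s))) (𝓝 0) (𝓝 0) := by
    have : Tendsto (fun s : ℝ => -(s * (1 + c * s)⁻¹)) (𝓝 0) (𝓝 (-(0 * 1))) :=
      (tendsto_id.mul hinv).neg
    simpa [div_eq_mul_inv] using this
  have hO : (fun s : ℝ => (-(s / (1 + c * s))) ^ 7) =O[𝓝 0] (fun s : ℝ => s ^ 7) := by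
    have b1 : (fun s : ℝ => (1 + c * s)⁻¹) =O[𝓝 0] (fun _ : ℝ => (1 : ℝ)) :=
      hinv.isBigO_one ℝ
    have b2 : (fun s : ℝ => s * (1 + c * s)⁻¹) =O[𝓝 0] (fun s : ℝ => s * 1) :=
      (isBigO_refl (fun s : ℝ => s) _).mul b1
    have b3 : (fun s : ℝ => -(s / (1 + c * s))) =O[𝓝 0] (fun s : ℝ => s) := by
      simpa [div_eq_mul_inv] using b2.neg_left
    exact b3.pow 7
  have hT2 : (fun s : ℝ => F 0 (-(s / (1 + c * s))) - T (-(s / (1 + c * s)))) =o[𝓝 0]
      (fun s : ℝ => s ^ 7) := (hT.comp_tendsto hst).trans_isBigO hO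
  have hD : (fun s : ℝ => T s - T (-(s / (1 + c * s)))) =o[𝓝 0] (fun s : ℝ => s ^ 7) := by
    refine (hT2.sub hT).congr' ?_ EventuallyEq.rfl
    filter_upwards [hc] with s hs
    rw [hs]
    ring
  have hD2 : (fun s : ℝ => (1 + c * s) ^ 7 * (T s - T (-(s / (1 + c * s))))) =o[𝓝 0]
      (fun s : ℝ => 1 * s ^ 7) := by
    have b1 : (fun s : ℝ => (1 + c * s) ^ 7) =O[𝓝 0] (fun _ : ℝ => (1 : ℝ)) := by
      have : Tendsto (fun s : ℝ => (1 + c * s) ^ 7) (𝓝 0) (𝓝 (1 ^ 7)) := hlin.pow 7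
      exact this.isBigO_one ℝ
    exact b1.mul_isLittleO hD
  set a : ℕ → ℝ := fun k => match k with
    | 3 => 2 * c * G 2 + 2 * G 3
    | 4 => 11 * c ^ 2 * G 2 + 11 * c ^ 1 * G 3
    | 5 => 25 * c ^ 3 * G 2 + 27 * c ^ 2 * G 3 + 4 * c * G 4 + 2 * G 5
    | 6 => 30 * c ^ 4 * G 2 + 39 * c ^ 3 * G 3 + 18 * c ^ 2 * G 4 + 9 * c ^ 1 * G 5
    | 7 => 20 * c ^ 5 * G 2 + 36 * c ^ 4 * G 3 + 34 * c ^ 3 * G 4 + 22 * c ^ 2 * G 5
      + 6 * c * G 6 + 2 * G 7
    | _ => 0 with ha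
  set R : ℝ → ℝ := fun s => (7 * c ^ 6 * G 2 + 21 * c ^ 5 * G 3 + 35 * c ^ 4 * G 4
    + 35 * c ^ 3 * G 5 + 21 * c ^ 2 * G 6 + 7 * c ^ 1 * G 7) * s ^ 0
    + (1 * c ^ 7 * G 2 + 7 * c ^ 6 * G 3 + 21 * c ^ 5 * G 4 + 35 * c ^ 4 * G 5
      + 35 * c ^ 3 * G 6 + 21 * c ^ 2 * G 7) * s ^ 1
    + (1 * c ^ 7 * G 3 + 7 * c ^ 6 * G 4 + 21 * c ^ 5 * G 5 + 35 * c ^ 4 * G 6
      + 35 * c ^ 3 * G 7) * s ^ 2
    + (1 * c ^ 7 * G 4 + 7 * c ^ 6 * G 5 + 21 * c ^ 5 * G 6 + 35 * c ^ 4 * G 7) * s ^ 3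
    + (1 * c ^ 7 * G 5 + 7 * c ^ 6 * G 6 + 21 * c ^ 5 * G 7) * s ^ 4
    + (1 * c ^ 7 * G 6 + 7 * c ^ 6 * G 7) * s ^ 5 + (1 * c ^ 7 * G 7) * s ^ 6 with hR
  have hid : ∀ᶠ s in 𝓝 (0 : ℝ), (1 + c * s) ^ 7 * (T s - T (-(s / (1 + c * s))))
      = ∑ k ∈ Finset.range (7 + 1), a k * s ^ k + s ^ 8 * R s := by
    filter_upwards [hne] with s hs
    have e1 : (1 + c * s) ^ 7 * T (-(s / (1 + c * s)))
        = G 0 * (1 + c * s) ^ 7 + G 2 * s ^ 2 * (1 + c * s) ^ 5 - G 3 * s ^ 3 * (1 + c * s) ^ 4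
          + G 4 * s ^ 4 * (1 + c * s) ^ 3 - G 5 * s ^ 5 * (1 + c * s) ^ 2
          + G 6 * s ^ 6 * (1 + c * s) - G 7 * s ^ 7 := by
      simp only [hTdef, Finset.sum_range_succ, Finset.sum_range_zero, hG1]
      field_simp
      ring
    rw [mul_sub, e1]
    simp only [hTdef, ha, hR, Finset.sum_range_succ, Finset.sum_range_zero, hG1]
    ring
  have hlow : (fun s : ℝ => ∑ k ∈ Finset.range (7 + 1), a k * s ^ k) =o[𝓝 0]
      (fun s : ℝ => s ^ 7) := by
    have b1 : (fun s : ℝ => s ^ 8 * R s) =o[𝓝 0] (fun s : ℝ => s ^ 7) := by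
      have c1 : (fun s : ℝ => s * R s) =o[𝓝 0] (fun _ : ℝ => (1 : ℝ)) := by
        rw [isLittleO_one_iff]
        have : Tendsto (fun s : ℝ => s * R s) (𝓝 0) (𝓝 (0 * R 0)) :=
          Continuous.tendsto (by simp only [hR]; fun_prop) 0
        simpa using this
      have c2 := (isBigO_refl (fun s : ℝ => s ^ 7) (𝓝 0)).mul_isLittleO c1
      refine c2.congr' ?_ ?_
      · exact Eventually.of_forall fun s => by ring
      · exact Eventually.of_forall fun s => by ring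
    have b2 := hD2.sub (b1.congr_right (g₂ := fun s : ℝ => 1 * s ^ 7) fun s => by ring)
    refine b2.congr' ?_ ?_
    · filter_upwards [hid] with s hs
      rw [hs]
      ring
    · exact Eventually.of_forall fun s => by ring
  have hz := coeffs_zero 7 a (hlow.mono nhdsWithin_le_nhds)
  exact ⟨hz 3 (by norm_num), hz 5 (by norm_num), hz 7 (by norm_num)⟩

end Pool.Agent.V5helper96.PJ
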