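import Pool.Agent.V5helper96.PJ.Ellipse

/-!
# Projective involutions, step 10: from the curve to the frame, and the leaves
-/

open Filter Topology Set

namespace Pool.Agent.V5helper96.PJ

section frame

variable {M : ℝ × ℝ →L[ℝ] ℝ × ℝ} {p : ℝ → ℝ × ℝ} {L : ℝ}

lemma smooth_deriv {F : Type*} [NormedAddCommGroup F] [NormedSpace ℝ F] {u : ℝ → F}
    (hu : ContDiff ℝ (⊤ : ℕ∞) u) : ContDiff ℝ (⊤ : ℕ∞) (deriv u) :=
  (contDiff_infty_iff_deriv.mp hu).2

lemma deriv_per {F : Type*} [NormedAddCommGroup F] [NormedSpace ℝ F] {u : ℝ → F} {L : ℝ}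
    (hp : ∀ x, u (x + L) = u x) (x : ℝ) : deriv u (x + L) = deriv u x := by
  have h1 : (fun y => u (y + L)) = u := funext hp
  have h2 := deriv_comp_add_const u L x
  rw [h1] at h2
  exact h2.symm

theorem frame_of (hL : 0 < L) (hper : ∀ x, p (x + L) = p x) (hp : ContDiff ℝ (⊤ : ℕ∞) p)
    (convex : ∀ x, 0 < dt (deriv p x) (deriv (deriv p) x))
    (inside : ∀ x, 0 < dt (p x) (deriv p x))
    (hneg : ∀ x, dt (deriv p x) (M (p x)) < 0) :
    ∃ (e : ℝ → ℝ × ℝ) (lam rho r : ℝ → ℝ), Frame M p e lam rho r L ∧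
      ∀ x, ∃ τ : ℝ, 0 < τ ∧ e x = τ • deriv p x := by
  set v := deriv p with hv
  have hvs : ContDiff ℝ (⊤ : ℕ∞) v := smooth_deriv hp
  have hMp : ContDiff ℝ (⊤ : ℕ∞) (fun x => M (p x)) := M.contDiff.comp hp
  set h : ℝ → ℝ := fun x => dt (v x) (M (p x)) with hh
  have hhs : ContDiff ℝ (⊤ : ℕ∞) h := (hvs.fst.mul hMp.snd).sub (hvs.snd.mul hMp.fst)
  have hh0 : ∀ x, h x ≠ 0 := fun x => (hneg x).ne
  set τ : ℝ → ℝ := fun x => -(h x)⁻¹ with hτ
  have hτs : ContDiff ℝ (⊤ : ℕ∞) τ := (hhs.inv hh0).neg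
  have hτ0 : ∀ x, 0 < τ x := fun x => by
    simp only [hτ]
    have := inv_lt_zero.mpr (hneg x)
    linarith
  set e : ℝ → ℝ × ℝ := fun x => τ x • v x with he
  have hes : ContDiff ℝ (⊤ : ℕ∞) e := hτs.smul hvs
  have hed : ∀ x, HasDerivAt e (deriv e x) x := fun x =>
    ((hes.differentiable (by simp)) x).hasDerivAt
  have hpd : ∀ x, HasDerivAt p (v x) x := fun x =>
    ((hp.differentiable (by simp)) x).hasDerivAt
  have hvd : ∀ x, HasDerivAt v (deriv v x) x := fun x =>
    ((hvs.differentiable (by simp)) x).hasDerivAt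
  have hτd : ∀ x, HasDerivAt τ (deriv τ x) x := fun x =>
    ((hτs.differentiable (by simp)) x).hasDerivAt
  have hes2 : ContDiff ℝ (⊤ : ℕ∞) (deriv e) := smooth_deriv hes
  set lam : ℝ → ℝ := fun x => dt (e x) (deriv e x) with hlam
  have hlams : ContDiff ℝ (⊤ : ℕ∞) lam := (hes.fst.mul hes2.snd).sub (hes.snd.mul hes2.fst)
  have hlam0 : ∀ x, 0 < lam x := fun x => by
    have h1 := (hed x).unique ((hτd x).smul (hvd x))
    simp only [hlam]
    rw [h1]
    simp only [he]
    rw [dt_smul_left, dt_add_right, dt_smul_right, dt_smul_right, dt_self]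
    have h2 := convex x
    have h3 := hτ0 x
    have : 0 < τ x * (τ x * dt (v x) (deriv v x)) := by positivity
    linarith
  set rho : ℝ → ℝ := fun x => -(h x) / lam x with hrho
  have hrhos : ContDiff ℝ (⊤ : ℕ∞) rho := hhs.neg.div hlams fun x => (hlam0 x).ne'
  set r : ℝ → ℝ := fun x => -dt (e x) (M (e x)) with hr
  have hlr : ∀ x, lam x * rho x = -(h x) := fun x => by
    simp only [hrho]; field_simp [(hlam0 x).ne']
  have hve : ∀ x, v x = -(h x) • e x := fun x => by
    simp only [he, hτ, smul_smul]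
    rw [neg_mul_neg, mul_inv_cancel₀ (hh0 x), one_smul]
  have hnrm : ∀ x, dt (e x) (M (p x)) = -1 := fun x => by
    simp only [he]
    rw [dt_smul_left]
    change -(h x)⁻¹ * h x = -1
    rw [neg_mul, inv_mul_cancel₀ (hh0 x)]
  refine ⟨e, lam, rho, r, ?_, fun x => ⟨τ x, hτ0 x, rfl⟩⟩
  have hvper : ∀ x, v (x + L) = v x := deriv_per hper
  have heper : ∀ x, e (x + L) = e x := fun x => by
    simp only [he, hτ, hh, hvper, hper]
  have hlamper : ∀ x, lam (x + L) = lam x := fun x => by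
    simp only [hlam, heper, deriv_per heper]
  refine { L_pos := hL, per_p := hper, per_e := heper, per_lam := hlamper, per_rho := ?_,
           sm_p := hp, sm_e := hes, sm_lam := hlams, sm_rho := hrhos, lam_pos := hlam0,
           rho_pos := ?_, dp := ?_, de := ?_, nrm := hnrm, r_def := fun x => rfl, d_neg := ?_ }
  · intro x
    simp only [hrho, hh, hvper, hper, hlamper]
  · intro x
    simp only [hrho]
    have := hneg x
    exact div_pos (by simp only [hh]; linarith) (hlam0 x)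
  · intro x
    refine (hpd x).congr_deriv ?_
    rw [smul_smul, hlr x, ← hve x]
  · intro x
    refine (hed x).congr_deriv ?_
    have h1 := expand (hnrm x) (deriv e x)
    have h2 : HasDerivAt (fun t => dt (e t) (M (p t)))
        (dt (deriv e x) (M (p x)) + dt (e x) (M (v x))) x :=
      hasDeriv_dt (hed x) (M.hasFDerivAt.comp_hasDerivAt x (hpd x))
    have h3 : (fun t => dt (e t) (M (p t))) = fun _ => -1 := funext hnrm
    rw [h3] at h2
    have h4 := h2.unique (hasDerivAt_const x (-1 : ℝ))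
    have h5 : dt (e x) (M (v x)) = h x * r x := by
      rw [hve x, map_smul, dt_smul_right]
      simp only [hr]; ring
    rw [h5] at h4
    have h6 : -dt (deriv e x) (M (p x)) = -(lam x * (rho x * r x)) := by
      rw [← mul_assoc, hlr x]; linarith
    rw [h6] at h1
    rw [h1]
    change -(lam x * (rho x * r x)) • e x + (-lam x) • M (p x) = _
    module
  · intro x
    simp only [he]
    rw [dt_smul_left, dt_swap]
    have h1 := inside x
    have h2 := hτ0 x
    have : 0 < τ x * dt (p x) (v x) := by positivity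
    linarith

end frame

section leaves

variable (M : ℝ × ℝ →L[ℝ] ℝ × ℝ)

lemma exp_flow_deriv (y : ℝ × ℝ) (t : ℝ) :
    HasDerivAt (fun u : ℝ => NormedSpace.exp (u • M) y) (M (NormedSpace.exp (t • M) y)) t := by
  have h1 := hasDerivAt_exp_smul_const' M t
  have h2 := h1.clm_apply (hasDerivAt_const t y)
  refine h2.congr_deriv ?_
  simp

lemma exp_inv (t : ℝ) (y : ℝ × ℝ) :
    NormedSpace.exp (t • M) (NormedSpace.exp ((-t) • M) y) = y := by
  have hd : ∀ u : ℝ, HasDerivAt (fun u : ℝ => NormedSpace.exp (u • M) * NormedSpace.exp ((-u) • M))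
      0 u := by
    intro u
    have h1 := hasDerivAt_exp_smul_const M u
    have h2 := (hasDerivAt_exp_smul_const' M (-u)).scomp u (hasDerivAt_neg u)
    have h3 := h1.mul h2
    refine h3.congr_deriv ?_
    refine ContinuousLinearMap.ext fun z => ?_
    simp only [Function.comp, ContinuousLinearMap.add_apply, ContinuousLinearMap.mul_apply,
      ContinuousLinearMap.smul_apply, ContinuousLinearMap.zero_apply, map_smul]
    module
  have h0 := is_const_of_deriv_eq_zero (fun u => (hd u).differentiableAt)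
    (fun u => (hd u).deriv) t 0
  simp only [neg_zero, zero_smul, NormedSpace.exp_zero, mul_one] at h0
  have h1 := congrArg (fun A : ℝ × ℝ →L[ℝ] ℝ × ℝ => A y) h0
  simpa using h1

lemma qf_flow {a b k T : ℝ} (hB : ∀ y, bf a b k y (M y) = T / 2 * qf a b k y) (t : ℝ)
    (y : ℝ × ℝ) : qf a b k (NormedSpace.exp (t • M) y) = Real.exp (T * t) * qf a b k y := by
  have hd : ∀ u : ℝ, HasDerivAt (fun u : ℝ => Real.exp (-(T * u)) *
      qf a b k (NormedSpace.exp (u • M) y)) 0 u := by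
    intro u
    have h1 := exp_flow_deriv M y u
    set z := NormedSpace.exp (u • M) y with hz
    have z1 : HasDerivAt (fun u : ℝ => (NormedSpace.exp (u • M) y).1) (M z).1 u := h1.fst
    have z2 : HasDerivAt (fun u : ℝ => (NormedSpace.exp (u • M) y).2) (M z).2 u := h1.snd
    have h2 : HasDerivAt (fun u : ℝ => qf a b k (NormedSpace.exp (u • M) y))
        (2 * bf a b k z (M z)) u := by
      have := (((z1.pow 2).const_mul a).add ((z1.const_mul (2 * b)).mul z2)).add
        ((z2.pow 2).const_mul k)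
      refine this.congr_deriv ?_
      simp only [bf]
      push_cast
      ring
    have h3 : HasDerivAt (fun u : ℝ => Real.exp (-(T * u))) (Real.exp (-(T * u)) * (-T)) u := by
      have h4 : HasDerivAt (fun u : ℝ => T * u) T u := by
        simpa using (hasDerivAt_id u).const_mul T
      have h5 : HasDerivAt (fun u : ℝ => -(T * u)) (-T) u := h4.neg
      exact h5.exp
    refine (h3.mul h2).congr_deriv ?_
    rw [hB z]
    ring
  have h0 := is_const_of_deriv_eq_zero (fun u => (hd u).differentiableAt)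
    (fun u => (hd u).deriv) t 0
  simp only [mul_zero, neg_zero, Real.exp_zero, zero_smul, NormedSpace.exp_zero, one_mul] at h0
  have h1 : Real.exp (T * t) * (Real.exp (-(T * t)) * qf a b k (NormedSpace.exp (t • M) y))
      = Real.exp (T * t) * qf a b k y := by
    rw [h0]; simp
  rw [← mul_assoc, ← Real.exp_add, add_neg_cancel, Real.exp_zero, one_mul] at h1
  exact h1

lemma leaves_image {p : ℝ → ℝ × ℝ} {a b k T : ℝ}
    (hB : ∀ y, bf a b k y (M y) = T / 2 * qf a b k y)
    (hQ : ∀ y, qf a b k y = 1 ↔ ∃ x, p x = y) (t : ℝ) :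
    (fun y => NormedSpace.exp (t • M) y) '' range p = {y | qf a b k y = Real.exp (T * t)} := by
  ext y
  constructor
  · rintro ⟨z, ⟨x, rfl⟩, rfl⟩
    change qf a b k (NormedSpace.exp (t • M) (p x)) = Real.exp (T * t)
    rw [qf_flow M hB, (hQ (p x)).mpr ⟨x, rfl⟩, mul_one]
  · intro hy
    have hy' : qf a b k y = Real.exp (T * t) := hy
    refine ⟨NormedSpace.exp ((-t) • M) y, ?_, exp_inv M t y⟩
    have h1 : qf a b k (NormedSpace.exp ((-t) • M) y) = 1 := by
      rw [qf_flow M hB, hy', ← Real.exp_add]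
      simp
    obtain ⟨x, hx⟩ := (hQ _).mp h1
    exact ⟨x, hx⟩

lemma leaves_local {p : ℝ → ℝ × ℝ} {a b k T : ℝ} (hT : T ≠ 0) {f : ℝ × ℝ → ℝ}
    {U : Set (ℝ × ℝ)} (hU : IsOpen U) (hpU : ∀ x, p x ∈ U) (hf : ContDiffOn ℝ (⊤ : ℕ∞) f U)
    (f0 : ∀ x, f (p x) = 0) (fM : ∀ y ∈ U, fderiv ℝ f y (M y) = 1)
    (hB : ∀ y, bf a b k y (M y) = T / 2 * qf a b k y)
    (hQ : ∀ y, qf a b k y = 1 ↔ ∃ x, p x = y) (x0 : ℝ) :
    ∀ᶠ y in 𝓝 (p x0), qf a b k y = Real.exp (T * f y) := by
  have hexpc : Continuous fun t : ℝ => NormedSpace.exp ((-t) • M) := by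
    have h1 : Continuous fun t : ℝ => NormedSpace.exp (t • M) :=
      continuous_iff_continuousAt.mpr fun t => (hasDerivAt_exp_smul_const M t).continuousAt
    exact h1.comp continuous_neg
  have hΨ : Continuous fun z : ℝ × (ℝ × ℝ) => NormedSpace.exp ((-z.1) • M) z.2 :=
    (hexpc.comp continuous_fst).clm_apply continuous_snd
  have hmem : ∀ᶠ z in 𝓝 ((0 : ℝ), p x0), NormedSpace.exp ((-z.1) • M) z.2 ∈ U := by
    refine hΨ.continuousAt.eventually (hU.mem_nhds ?_)
    simpa using hpU x0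
  rw [nhds_prod_eq, Filter.eventually_prod_iff] at hmem
  obtain ⟨pa, hpa, pb, hpb, hab⟩ := hmem
  obtain ⟨ε, hε, hball⟩ := Metric.eventually_nhds_iff_ball.mp hpa
  have hqc : Continuous fun y : ℝ × ℝ => qf a b k y := by unfold qf; fun_prop
  have hq1 : qf a b k (p x0) = 1 := (hQ _).mpr ⟨x0, rfl⟩
  have hpos : ∀ᶠ y in 𝓝 (p x0), 0 < qf a b k y :=
    hqc.continuousAt.eventually (lt_mem_nhds (by
      change 0 < qf a b k (p x0)
      rw [hq1]; exact one_pos))
  have hlog : ∀ᶠ y in 𝓝 (p x0), Real.log (qf a b k y) / T ∈ Metric.ball (0 : ℝ) ε := by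
    have hc : ContinuousAt (fun y => Real.log (qf a b k y) / T) (p x0) := by
      refine ContinuousAt.div_const (ContinuousAt.log hqc.continuousAt ?_) T
      rw [hq1]; exact one_ne_zero
    refine hc.eventually (Metric.isOpen_ball.mem_nhds ?_)
    change Real.log (qf a b k (p x0)) / T ∈ Metric.ball (0 : ℝ) ε
    rw [hq1]
    simp [hε]
  filter_upwards [hpb, hpos, hlog] with y hy1 hy2 hy3
  set t1 := Real.log (qf a b k y) / T with ht1
  have hz : qf a b k (NormedSpace.exp ((-t1) • M) y) = 1 := by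
    rw [qf_flow M hB]
    have h1 : T * -t1 = -Real.log (qf a b k y) := by rw [ht1]; field_simp
    rw [h1, Real.exp_neg, Real.exp_log hy2]
    exact inv_mul_cancel₀ hy2.ne'
  obtain ⟨x1, hx1⟩ := (hQ _).mp hz
  have hin : ∀ u ∈ Metric.ball (0 : ℝ) ε, NormedSpace.exp ((-u) • M) y ∈ U :=
    fun u hu => hab (hball u hu) hy1
  have hder : ∀ u ∈ Metric.ball (0 : ℝ) ε,
      HasDerivAt (fun u : ℝ => f (NormedSpace.exp ((-u) • M) y) + u) 0 u := by
    intro u hu
    have h1 : HasDerivAt (fun u : ℝ => NormedSpace.exp ((-u) • M) y)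
        ((-1 : ℝ) • M (NormedSpace.exp ((-u) • M) y)) u :=
      (exp_flow_deriv M y (-u)).scomp u (hasDerivAt_neg u)
    have hd : HasFDerivAt f (fderiv ℝ f (NormedSpace.exp ((-u) • M) y))
        (NormedSpace.exp ((-u) • M) y) := (diffAt_of_smooth hU hf (hin u hu)).hasFDerivAt
    have h2 := (hd.comp_hasDerivAt u h1).add (hasDerivAt_id u)
    refine h2.congr_deriv ?_
    rw [map_smul, fM _ (hin u hu)]
    simp
  have hconst := IsOpen.is_const_of_deriv_eq_zero (Metric.isOpen_ball (x := (0 : ℝ)) (ε := ε))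
    (convex_ball (0 : ℝ) ε).isPreconnected
    (fun u hu => (hder u hu).differentiableAt.differentiableWithinAt)
    (fun u hu => (hder u hu).deriv) hy3 (Metric.mem_ball_self hε)
  simp only [neg_zero, zero_smul, NormedSpace.exp_zero, add_zero] at hconst
  rw [← hx1, f0 x1, zero_add] at hconst
  have h2 : f y = t1 := by simpa using hconst.symm
  rw [h2, ht1, mul_div_cancel₀ _ hT, Real.exp_log hy2]

end leaves

/-- core theorem for curves with `det(p', Mp) < 0` -/
theorem main_neg (M : ℝ × ℝ →L[ℝ] ℝ × ℝ) (p : ℝ → ℝ × ℝ) (L : ℝ) (f : ℝ × ℝ → ℝ)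
    (U : Set (ℝ × ℝ)) (hL : 0 < L) (hper : ∀ x, p (x + L) = p x)
    (hp : ContDiff ℝ (⊤ : ℕ∞) p)
    (convex : ∀ x, 0 < dt (deriv p x) (deriv (deriv p) x))
    (inside : ∀ x, 0 < dt (p x) (deriv p x))
    (hU : IsOpen U) (hpU : ∀ x, p x ∈ U) (hf : ContDiffOn ℝ (⊤ : ℕ∞) f U)
    (f0 : ∀ x, f (p x) = 0) (fM : ∀ y ∈ U, fderiv ℝ f y (M y) = 1)
    (proj : ∀ x, ∃ c : ℝ, ∀ᶠ s in 𝓝 (0 : ℝ),
      f (p x + s • deriv p x) = f (p x - (s / (1 + c * s)) • deriv p x))
    (hneg : ∀ x, dt (deriv p x) (M (p x)) < 0) :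
    ∃ a b k : ℝ, 0 < a ∧ b ^ 2 < a * k ∧ (∀ y, qf a b k y = 1 ↔ ∃ x, p x = y) ∧
      (∀ y, bf a b k y (M y) = tr M / 2 * qf a b k y) ∧ 0 < tr M := by
  obtain ⟨e, lam, rho, r, F, hτ⟩ := frame_of hL hper hp convex inside hneg
  have proj' : ∀ x, ∃ c : ℝ, ∀ᶠ s in 𝓝 (0 : ℝ),
      f (p x + s • e x) = f (p x - (s / (1 + c * s)) • e x) := by
    intro x
    obtain ⟨τ, hτ0, he⟩ := hτ x
    obtain ⟨c, hc⟩ := proj x
    refine ⟨c * τ, ?_⟩
    have hlim : Tendsto (fun s : ℝ => s * τ) (𝓝 0) (𝓝 0) := by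
      have : Tendsto (fun s : ℝ => s * τ) (𝓝 0) (𝓝 (0 * τ)) :=
        Continuous.tendsto (by fun_prop) 0
      simpa using this
    filter_upwards [hlim.eventually hc] with s hs
    rw [he, smul_smul, hs, smul_smul]
    congr 3
    rw [div_mul_eq_mul_div]
    congr 1
    ring
  obtain ⟨c, c1, W, N, h1, h2, h3, h4, h5, h6⟩ := structure_eqs F hU hpU hf f0 fM proj'
  have E : Eqs M p e lam rho r c c1 W N := ⟨h1, h2, h3, h4, h5, h6⟩
  obtain ⟨a, b, k, q1, q2, q3, q4⟩ := ellipse F E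
  exact ⟨a, b, k, q1, q2, q3, q4, F.tr_pos⟩

/-- the theorem for every transversal linear flow -/
theorem main (M : ℝ × ℝ →L[ℝ] ℝ × ℝ) (p : ℝ → ℝ × ℝ) (L : ℝ) (f : ℝ × ℝ → ℝ)
    (U : Set (ℝ × ℝ)) (hL : 0 < L) (hper : ∀ x, p (x + L) = p x)
    (hp : ContDiff ℝ (⊤ : ℕ∞) p)
    (convex : ∀ x, 0 < dt (deriv p x) (deriv (deriv p) x))
    (inside : ∀ x, 0 < dt (p x) (deriv p x))
    (hU : IsOpen U) (hpU : ∀ x, p x ∈ U) (hf : ContDiffOn ℝ (⊤ : ℕ∞) f U)
    (f0 : ∀ x, f (p x) = 0) (fM : ∀ y ∈ U, fderiv ℝ f y (M y) = 1)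
    (proj : ∀ x, ∃ c : ℝ, ∀ᶠ s in 𝓝 (0 : ℝ),
      f (p x + s • deriv p x) = f (p x - (s / (1 + c * s)) • deriv p x)) :
    tr M ≠ 0 ∧ ∃ a b k : ℝ, 0 < a ∧ b ^ 2 < a * k ∧ (∀ y, qf a b k y = 1 ↔ ∃ x, p x = y) ∧
      (∀ t : ℝ, (fun y => NormedSpace.exp (t • M) y) '' range p
        = {y | qf a b k y = Real.exp (tr M * t)}) ∧
      (∀ x, ∀ᶠ y in 𝓝 (p x), qf a b k y = Real.exp (tr M * f y)) := by
  have hpd : ∀ x, HasDerivAt p (deriv p x) x := fun x =>
    ((hp.differentiable (by simp)) x).hasDerivAt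
  have hvs : ContDiff ℝ (⊤ : ℕ∞) (deriv p) := smooth_deriv hp
  have hMp : ContDiff ℝ (⊤ : ℕ∞) (fun x => M (p x)) := M.contDiff.comp hp
  have hcont : Continuous fun x => dt (deriv p x) (M (p x)) :=
    ((hvs.fst.mul hMp.snd).sub (hvs.snd.mul hMp.fst)).continuous
  have hne : ∀ x, dt (deriv p x) (M (p x)) ≠ 0 := by
    intro x hx
    have hv0 : deriv p x ≠ 0 := by
      intro h
      have := inside x
      rw [h] at this
      simp [dt] at this
    have hd : HasFDerivAt f (fderiv ℝ f (p x)) (p x) :=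
      (diffAt_of_smooth hU hf (hpU x)).hasFDerivAt
    have h1 : fderiv ℝ f (p x) (deriv p x) = 0 := by
      have h2 := hd.comp_hasDerivAt x (hpd x)
      have h3 : (f ∘ p) = fun _ => 0 := funext f0
      rw [h3] at h2
      exact h2.unique (hasDerivAt_const x 0)
    have h4 := fM _ (hpU x)
    simp only [dt] at hx
    -- `Mp` is a multiple of `p'`
    have h5 : ((deriv p x).1 ^ 2 + (deriv p x).2 ^ 2) • M (p x)
        = ((deriv p x).1 * (M (p x)).1 + (deriv p x).2 * (M (p x)).2) • deriv p x := by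
      ext
      · simp only [Prod.smul_fst, smul_eq_mul]
        linear_combination (-(deriv p x).2) * hx
      · simp only [Prod.smul_snd, smul_eq_mul]
        linear_combination (deriv p x).1 * hx
    have h6 := congrArg (fderiv ℝ f (p x)) h5
    rw [map_smul, map_smul, h1, h4, smul_eq_mul, smul_eq_mul, mul_zero, mul_one] at h6
    apply hv0
    have g1 : (deriv p x).1 = 0 := by
      nlinarith [sq_nonneg (deriv p x).1, sq_nonneg (deriv p x).2]
    have g2 : (deriv p x).2 = 0 := by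
      nlinarith [sq_nonneg (deriv p x).1, sq_nonneg (deriv p x).2]
    exact Prod.ext g1 g2
  have hsign : (∀ x, dt (deriv p x) (M (p x)) < 0) ∨ (∀ x, 0 < dt (deriv p x) (M (p x))) := by
    by_contra hcon
    push Not at hcon
    obtain ⟨⟨x, hx⟩, ⟨y, hy⟩⟩ := hcon
    obtain ⟨t, _, ht⟩ := isPreconnected_univ.intermediate_value (mem_univ y) (mem_univ x)
      hcont.continuousOn ⟨hy, hx⟩
    exact hne t ht
  rcases hsign with hs | hs
  · obtain ⟨a, b, k, q1, q2, q3, q4, q5⟩ :=
      main_neg M p L f U hL hper hp convex inside hU hpU hf f0 fM proj hs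
    exact ⟨q5.ne', a, b, k, q1, q2, q3, leaves_image M q4 q3,
      leaves_local M q5.ne' hU hpU hf f0 fM q4 q3⟩
  · have htr : tr (-M) = -tr M := by simp [tr]; ring
    obtain ⟨a, b, k, q1, q2, q3, q4, q5⟩ :=
      main_neg (-M) p L (fun y => -f y) U hL hper hp convex inside hU hpU hf.neg
        (fun x => by rw [f0 x, neg_zero]) (fun y hy => by
          have : (fun y => -f y) = -f := rfl
          rw [this, fderiv_neg]
          simp [fM y hy])
        (fun x => by
          obtain ⟨c, hc⟩ := proj x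
          exact ⟨c, hc.mono fun s hs => by rw [hs]⟩)
        (fun x => by
          have := hs x
          rw [ContinuousLinearMap.neg_apply]
          simp only [dt, Prod.fst_neg, Prod.snd_neg] at this ⊢
          linarith)
    have hT : tr M ≠ 0 := by
      rw [htr] at q5
      intro h
      rw [h] at q5
      simp at q5
    have q4' : ∀ y, bf a b k y (M y) = tr M / 2 * qf a b k y := fun y => by
      have h1 := q4 y
      rw [htr, ContinuousLinearMap.neg_apply] at h1
      simp only [bf, Prod.fst_neg, Prod.snd_neg] at h1 ⊢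
      linarith
    exact ⟨hT, a, b, k, q1, q2, q3, leaves_image M q4' q3,
      leaves_local M hT hU hpU hf f0 fM q4' q3⟩

end Pool.Agent.V5helper96.PJ
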