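import Pool.Agent.V5helper96.PJ.Jet

/-!
# Projective involutions, step 2: differentiating the transport equation

For a smooth function `g(x,s)` on an open set, `FS g m` is the `m`-th derivative in `s`, and
`FX g m` the `x`-derivative of `FS g m`.  If `(1+rs) g_x = λ((ρ+ks²) g_s - s)` for all small `s`
then the derivatives at `s = 0` satisfy the recursion `pde_rec`.
-/

open Filter Topology Asymptotics

namespace Pool.Agent.V5helper96.PJ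

/-- `m`-th partial derivative in the second variable -/
noncomputable def FS (g : ℝ × ℝ → ℝ) : ℕ → ℝ × ℝ → ℝ
  | 0 => g
  | m + 1 => fun z => fderiv ℝ (FS g m) z (0, 1)

/-- partial derivative in the first variable of the `m`-th partial derivative in the second -/
noncomputable def FX (g : ℝ × ℝ → ℝ) (m : ℕ) : ℝ × ℝ → ℝ :=
  fun z => fderiv ℝ (FS g m) z (1, 0)

lemma smooth_fderiv_apply {F : ℝ × ℝ → ℝ} {Ω : Set (ℝ × ℝ)} (hΩ : IsOpen Ω)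
    (hF : ContDiffOn ℝ (⊤ : ℕ∞) F Ω) (v : ℝ × ℝ) :
    ContDiffOn ℝ (⊤ : ℕ∞) (fun z => fderiv ℝ F z v) Ω := by
  have h1 : ContDiffOn ℝ (⊤ : ℕ∞) (fderiv ℝ F) Ω :=
    hF.fderiv_of_isOpen hΩ (by simp)
  exact h1.clm_apply contDiffOn_const

lemma FS_smooth {g : ℝ × ℝ → ℝ} {Ω : Set (ℝ × ℝ)} (hΩ : IsOpen Ω)
    (hg : ContDiffOn ℝ (⊤ : ℕ∞) g Ω) (m : ℕ) : ContDiffOn ℝ (⊤ : ℕ∞) (FS g m) Ω := by
  induction m with
  | zero => exact hg
  | succ m ih => exact smooth_fderiv_apply hΩ ih _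

lemma FX_smooth {g : ℝ × ℝ → ℝ} {Ω : Set (ℝ × ℝ)} (hΩ : IsOpen Ω)
    (hg : ContDiffOn ℝ (⊤ : ℕ∞) g Ω) (m : ℕ) : ContDiffOn ℝ (⊤ : ℕ∞) (FX g m) Ω :=
  smooth_fderiv_apply hΩ (FS_smooth hΩ hg m) _

lemma diffAt_of_smooth {F : ℝ × ℝ → ℝ} {Ω : Set (ℝ × ℝ)} (hΩ : IsOpen Ω)
    (hF : ContDiffOn ℝ (⊤ : ℕ∞) F Ω) {z : ℝ × ℝ} (hz : z ∈ Ω) : DifferentiableAt ℝ F z :=
  ((hF.differentiableOn (by simp)) z hz).differentiableAt (hΩ.mem_nhds hz)

lemma deriv_snd {F : ℝ × ℝ → ℝ} {x s : ℝ} (hF : DifferentiableAt ℝ F (x, s)) :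
    HasDerivAt (fun t => F (x, t)) (fderiv ℝ F (x, s) (0, 1)) s := by
  have h1 : HasDerivAt (fun t : ℝ => ((x, t) : ℝ × ℝ)) ((0, 1) : ℝ × ℝ) s :=
    (hasDerivAt_const s x).prodMk (hasDerivAt_id s)
  exact hF.hasFDerivAt.comp_hasDerivAt s h1

lemma deriv_fst {F : ℝ × ℝ → ℝ} {x s : ℝ} (hF : DifferentiableAt ℝ F (x, s)) :
    HasDerivAt (fun t => F (t, s)) (fderiv ℝ F (x, s) (1, 0)) x := by
  have h1 : HasDerivAt (fun t : ℝ => ((t, s) : ℝ × ℝ)) ((1, 0) : ℝ × ℝ) x :=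
    (hasDerivAt_id x).prodMk (hasDerivAt_const x s)
  exact hF.hasFDerivAt.comp_hasDerivAt x h1

lemma mixed_comm {F : ℝ × ℝ → ℝ} {Ω : Set (ℝ × ℝ)} (hΩ : IsOpen Ω)
    (hF : ContDiffOn ℝ (⊤ : ℕ∞) F Ω) {z : ℝ × ℝ} (hz : z ∈ Ω) (v w : ℝ × ℝ) :
    fderiv ℝ (fun y => fderiv ℝ F y v) z w = fderiv ℝ (fun y => fderiv ℝ F y w) z v := by
  have hc : ContDiffAt ℝ (⊤ : ℕ∞) F z := (hF z hz).contDiffAt (hΩ.mem_nhds hz)
  have hsym : IsSymmSndFDerivAt ℝ F z := hc.isSymmSndFDerivAt (by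
    simp only [minSmoothness_of_isRCLikeNormedField]
    exact WithTop.coe_le_coe.mpr (le_top (a := (2 : ℕ∞))))
  have hd : DifferentiableAt ℝ (fderiv ℝ F) z := by
    have h1 : ContDiffOn ℝ (⊤ : ℕ∞) (fderiv ℝ F) Ω := hF.fderiv_of_isOpen hΩ (by simp)
    exact ((h1.differentiableOn (by simp)) z hz).differentiableAt (hΩ.mem_nhds hz)
  have e : ∀ u : ℝ × ℝ, HasFDerivAt (fun y => fderiv ℝ F y u)
      ((fderiv ℝ (fderiv ℝ F) z).flip u) z := by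
    intro u
    have := hd.hasFDerivAt.clm_apply (hasFDerivAt_const u z)
    have e2 : (fderiv ℝ F z).comp (0 : ℝ × ℝ →L[ℝ] ℝ × ℝ)
        + (fderiv ℝ (fderiv ℝ F) z).flip u = (fderiv ℝ (fderiv ℝ F) z).flip u := by
      rw [ContinuousLinearMap.comp_zero, zero_add]
    rw [e2] at this
    exact this
  rw [(e v).fderiv, (e w).fderiv]
  simp only [ContinuousLinearMap.flip_apply]
  exact hsym w v

lemma FS_deriv_s {g : ℝ × ℝ → ℝ} {Ω : Set (ℝ × ℝ)} (hΩ : IsOpen Ω)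
    (hg : ContDiffOn ℝ (⊤ : ℕ∞) g Ω) (m : ℕ) {x s : ℝ} (hz : (x, s) ∈ Ω) :
    HasDerivAt (fun t => FS g m (x, t)) (FS g (m + 1) (x, s)) s :=
  deriv_snd (diffAt_of_smooth hΩ (FS_smooth hΩ hg m) hz)

lemma FS_deriv_x {g : ℝ × ℝ → ℝ} {Ω : Set (ℝ × ℝ)} (hΩ : IsOpen Ω)
    (hg : ContDiffOn ℝ (⊤ : ℕ∞) g Ω) (m : ℕ) {x s : ℝ} (hz : (x, s) ∈ Ω) :
    HasDerivAt (fun t => FS g m (t, s)) (FX g m (x, s)) x :=
  deriv_fst (diffAt_of_smooth hΩ (FS_smooth hΩ hg m) hz)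

lemma FX_deriv_s {g : ℝ × ℝ → ℝ} {Ω : Set (ℝ × ℝ)} (hΩ : IsOpen Ω)
    (hg : ContDiffOn ℝ (⊤ : ℕ∞) g Ω) (m : ℕ) {x s : ℝ} (hz : (x, s) ∈ Ω) :
    HasDerivAt (fun t => FX g m (x, t)) (FX g (m + 1) (x, s)) s := by
  have h1 := deriv_snd (diffAt_of_smooth hΩ (FX_smooth hΩ hg m) hz)
  have h2 : fderiv ℝ (FX g m) (x, s) (0, 1) = FX g (m + 1) (x, s) :=
    mixed_comm hΩ (FS_smooth hΩ hg m) hz (1, 0) (0, 1)
  rw [h2] at h1
  exact h1

/-- differentiating the transport equation in `s` -/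
lemma pde_step {A B : ℕ → ℝ → ℝ} {r rho k lam : ℝ}
    (hA : ∀ m, ∀ᶠ s in 𝓝 (0 : ℝ), HasDerivAt (A m) (A (m + 1) s) s)
    (hB : ∀ m, ∀ᶠ s in 𝓝 (0 : ℝ), HasDerivAt (B m) (B (m + 1) s) s)
    (h : ∀ᶠ s in 𝓝 (0 : ℝ), (1 + r * s) * B 0 s = lam * ((rho + k * s ^ 2) * A 1 s - s)) :
    ∀ n : ℕ, ∀ᶠ s in 𝓝 (0 : ℝ), (1 + r * s) * B (n + 1) s + (n + 1) * r * B n s
      = lam * ((rho + k * s ^ 2) * A (n + 2) s + 2 * (n + 1) * k * s * A (n + 1) s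
        + (n + 1) * n * k * A n s - (if n = 0 then 1 else 0)) := by
  intro n
  have dlin : ∀ s : ℝ, HasDerivAt (fun s : ℝ => 1 + r * s) r s := fun s => by
    simpa using ((hasDerivAt_id s).const_mul r).const_add 1
  have dsq : ∀ s : ℝ, HasDerivAt (fun s : ℝ => rho + k * s ^ 2) (k * (2 * s)) s := fun s => by
    simpa using (((hasDerivAt_pow 2 s).const_mul k).const_add rho)
  induction n with
  | zero =>
    filter_upwards [hA 1, hB 0, h.eventually_nhds] with s a1 b0 he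
    have d1 := (dlin s).mul b0
    have d2 := (((dsq s).mul a1).sub (hasDerivAt_id s)).const_mul lam
    have d3 := d2.congr_of_eventuallyEq (he.mono fun t ht => by
      simpa [Pi.mul_apply, Pi.sub_apply] using ht)
    have := d1.unique d3
    simp only [Nat.cast_zero, zero_add, if_true]
    linear_combination this
  | succ n ih =>
    filter_upwards [hA (n + 2), hA (n + 1), hA n, hB (n + 1), hB n, ih.eventually_nhds]
      with s a2 a1 a0 b1 b0 he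
    have d1 := ((dlin s).mul b1).add (b0.const_mul (((n : ℝ) + 1) * r))
    have c1 : HasDerivAt (fun s : ℝ => 2 * ((n : ℝ) + 1) * k * s) (2 * ((n : ℝ) + 1) * k) s := by
      simpa using (hasDerivAt_id s).const_mul (2 * ((n : ℝ) + 1) * k)
    have d2 := (((((dsq s).mul a2).add (c1.mul a1)).add
      (a0.const_mul (((n : ℝ) + 1) * n * k))).sub_const (if n = 0 then (1 : ℝ) else 0)).const_mul lam
    have d3 := d2.congr_of_eventuallyEq (he.mono fun t ht => by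
      simpa [Pi.mul_apply, Pi.add_apply] using ht)
    have := d1.unique d3
    simp only [Nat.succ_ne_zero, if_false, Nat.cast_add, Nat.cast_one]
    linear_combination this

/-- the recursion at `s = 0` -/
lemma pde_rec {A B : ℕ → ℝ → ℝ} {r rho k lam : ℝ}
    (hA : ∀ m, ∀ᶠ s in 𝓝 (0 : ℝ), HasDerivAt (A m) (A (m + 1) s) s)
    (hB : ∀ m, ∀ᶠ s in 𝓝 (0 : ℝ), HasDerivAt (B m) (B (m + 1) s) s)
    (h : ∀ᶠ s in 𝓝 (0 : ℝ), (1 + r * s) * B 0 s = lam * ((rho + k * s ^ 2) * A 1 s - s))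
    (n : ℕ) : B (n + 1) 0 + (n + 1) * r * B n 0
      = lam * (rho * A (n + 2) 0 + (n + 1) * n * k * A n 0 - (if n = 0 then 1 else 0)) := by
  have := (pde_step hA hB h n).self_of_nhds
  linear_combination this

end Pool.Agent.V5helper96.PJ
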