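import Pool.Agent.V5helper96.PJ.Flow

/-!
# Projective involutions, step 7: all invariants are constant
-/

open Filter Topology Set

namespace Pool.Agent.V5helper96.PJ

variable {M : ℝ × ℝ →L[ℝ] ℝ × ℝ} {p e : ℝ → ℝ × ℝ} {lam rho r : ℝ → ℝ} {L : ℝ}

lemma per_deriv {f f' : ℝ → ℝ} {L : ℝ} (hf : ∀ x, HasDerivAt f (f' x) x)
    (hp : ∀ x, f (x + L) = f x) (x : ℝ) : f' (x + L) = f' x := by
  have h1 := (hf (x + L)).comp_add_const x L
  have h2 : (fun y => f (y + L)) = f := funext hp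
  rw [h2] at h1
  exact h1.unique (hf x)

lemma rolle_per {f f' : ℝ → ℝ} {L : ℝ} (hL : 0 < L) (hf : ∀ x, HasDerivAt f (f' x) x)
    (hp : ∀ x, f (x + L) = f x) : ∃ x, f' x = 0 := by
  have h0 : f 0 = f L := by have := hp 0; rw [zero_add] at this; exact this.symm
  obtain ⟨c, _, hc⟩ := exists_hasDerivAt_eq_zero hL
    (fun x _ => (hf x).continuousAt.continuousWithinAt) h0 (fun x _ => hf x)
  exact ⟨c, hc⟩

lemma Frame.per_r (F : Frame M p e lam rho r L) (x : ℝ) : r (x + L) = r x := by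
  rw [F.r_def, F.r_def, F.per_e]

lemma Frame.per_k (F : Frame M p e lam rho r L) (x : ℝ) :
    Frame.kk M p e rho r (x + L) = Frame.kk M p e rho r x := by
  simp only [Frame.kk, Frame.qq, F.per_e, F.per_p, F.per_rho, F.per_r]

lemma Frame.tr_pos (F : Frame M p e lam rho r L) : 0 < tr M := by
  obtain ⟨x, hx⟩ := rolle_per F.L_pos (fun x => F.d_eta x) (fun x => by rw [F.per_p])
  have h1 := F.lam_pos x
  have h2 := F.rho_pos x
  have h3 : 2 + tr M * Frame.dd p e x = 0 := by
    rcases mul_eq_zero.mp hx with h | h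
    · exact absurd h h1.ne'
    · rcases mul_eq_zero.mp h with h | h
      · exact absurd (neg_eq_zero.mp h) h2.ne'
      · exact h
  have h4 : Frame.dd p e x < 0 := F.d_neg x
  by_contra hcon
  push Not at hcon
  nlinarith [mul_nonneg_of_nonpos_of_nonpos hcon h4.le]

lemma Frame.det_pos (F : Frame M p e lam rho r L) : 0 < dM M := by
  obtain ⟨x, hx⟩ := rolle_per F.L_pos (fun x => F.d_r x) F.per_r
  have h1 := F.lam_pos x
  have h2 := F.rho_pos x
  have h3 : -2 * rho x * r x ^ 2 - tr M + 2 * Frame.qq M p e x = 0 :=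
    (mul_eq_zero.mp hx).resolve_left h1.ne'
  have h4 : dt (e x) (p x) < 0 := F.d_neg x
  have h5 := F.tr_pos
  simp only [Frame.qq] at h3
  have h6 : dM M * dt (e x) (p x) < 0 := by
    nlinarith [mul_nonneg h2.le (sq_nonneg (r x))]
  by_contra hcon
  push Not at hcon
  nlinarith [mul_nonneg_of_nonpos_of_nonpos hcon h4.le]

section
variable {c c1 W N : ℝ → ℝ}

lemma Eqs.per_c (F : Frame M p e lam rho r L) (E : Eqs M p e lam rho r c c1 W N) (x : ℝ) :
    c (x + L) = c x := by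
  have h := per_deriv E.d_rho F.per_rho x
  simp only [F.per_lam, F.per_rho] at h
  have h1 := F.lam_pos x
  have h2 := F.rho_pos x
  have h3 : lam x * (3 * rho x ^ 2) ≠ 0 := by positivity
  refine mul_left_cancel₀ h3 ?_
  linear_combination h

lemma Eqs.per_c1 (F : Frame M p e lam rho r L) (E : Eqs M p e lam rho r c c1 W N) (x : ℝ) :
    c1 (x + L) = c1 x := by
  have h := per_deriv E.d_c (E.per_c F) x
  simp only [F.per_lam] at h
  exact mul_left_cancel₀ (F.lam_pos x).ne' h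

lemma Eqs.per_W (F : Frame M p e lam rho r L) (E : Eqs M p e lam rho r c c1 W N) (x : ℝ) :
    W (x + L) = W x := by
  rw [E.W_eq, E.W_eq, E.per_c F, E.per_c1 F, F.per_rho, F.per_r, F.per_k]

lemma Eqs.per_N (F : Frame M p e lam rho r L) (E : Eqs M p e lam rho r c c1 W N) (x : ℝ) :
    N (x + L) = N x := by
  rw [E.N_eq, E.N_eq, E.per_c F, E.per_c1 F, F.per_rho, F.per_r, F.per_k]

lemma cont_of_deriv {f f' : ℝ → ℝ} (hf : ∀ x, HasDerivAt f (f' x) x) : Continuous f :=
  continuous_iff_continuousAt.mpr fun x => (hf x).continuousAt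

lemma Eqs.cont_c1 (F : Frame M p e lam rho r L) (E : Eqs M p e lam rho r c c1 W N) :
    Continuous c1 := by
  have hc := cont_of_deriv E.d_c
  have hW := cont_of_deriv E.d_W
  have hr := F.sm_r.continuous
  have hk := F.sm_k.continuous
  have hrho := F.sm_rho.continuous
  have e1 : c1 = fun x => W x - (rho x * c x ^ 2 + 3 * rho x * r x * c x
      + 2 * Frame.kk M p e rho r x) := by
    funext x
    rw [E.W_eq]; ring
  rw [e1]
  fun_prop

lemma Eqs.cont_Q4 (F : Frame M p e lam rho r L) (E : Eqs M p e lam rho r c c1 W N) :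
    Continuous (Q4 rho c W N) := by
  have hc := cont_of_deriv E.d_c
  have hW := cont_of_deriv E.d_W
  have hN := cont_of_deriv E.d_N
  have hrho := F.sm_rho.continuous
  unfold Q4
  fun_prop

/-- the quartic has no real zero -/
theorem no_zero (F : Frame M p e lam rho r L) (E : Eqs M p e lam rho r c c1 W N)
    (z : ℝ × ℝ) : Q4 rho c W N z ≠ 0 := by
  intro hz
  have hT := F.tr_pos
  have hΔ := F.det_pos
  set V : ℝ × ℝ → ℝ := fun z => VV M (p z.1 + z.2 • e z.1) with hV
  have hpc := F.sm_p.continuous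
  have hec := F.sm_e.continuous
  have hVc : Continuous V := (VV_cont M).comp (by fun_prop)
  have hQc := E.cont_Q4 F
  -- reduction to a period
  have hred : ∀ z : ℝ × ℝ, ∃ y ∈ Ico 0 L, Q4 rho c W N (y, z.2) = Q4 rho c W N z ∧
      V (y, z.2) = V z := by
    intro z
    have hper : Function.Periodic (fun x => ((fun s => Q4 rho c W N (x, s), fun s => V (x, s)) :
        (ℝ → ℝ) × (ℝ → ℝ))) L := by
      intro x
      simp only [Q4, hV, F.per_rho, E.per_c F, E.per_W F, E.per_N F, F.per_p, F.per_e]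
    obtain ⟨y, hy, hxy⟩ := hper.exists_mem_Ico₀ F.L_pos z.1
    refine ⟨y, hy, ?_, ?_⟩
    · exact (congrFun (congrArg Prod.fst hxy) z.2).symm
    · exact (congrFun (congrArg Prod.snd hxy) z.2).symm
  -- coercivity
  obtain ⟨C, hC⟩ : ∃ C : ℝ, ∀ x ∈ Icc 0 L,
      ((p x).1 ^ 2 + (p x).2 ^ 2) / (dt (e x) (p x)) ^ 2 ≤ C := by
    have hcont : Continuous fun x => ((p x).1 ^ 2 + (p x).2 ^ 2) / (dt (e x) (p x)) ^ 2 := by
      unfold dt
      refine Continuous.div (by fun_prop) (by fun_prop) fun x => ?_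
      exact pow_ne_zero 2 (F.d_neg x).ne
    obtain ⟨m, _, hm⟩ := isCompact_Icc.exists_isMaxOn (nonempty_Icc.mpr F.L_pos.le)
      hcont.continuousOn
    exact ⟨_, fun x hx => hm hx⟩
  have hC0 : 0 ≤ C := le_trans (by positivity) (hC 0 ⟨le_rfl, F.L_pos.le⟩)
  have hcoer : ∀ x ∈ Icc 0 L, ∀ s : ℝ, s ^ 2 ≤ C * (V (x, s) / dM M) := by
    intro x hx s
    have hd := (F.d_neg x).ne
    have h1 : (p x).1 ^ 2 + (p x).2 ^ 2 ≤ C * (dt (e x) (p x)) ^ 2 := by
      have := hC x hx
      rwa [div_le_iff₀ (by positivity)] at this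
    set P := p x + s • e x with hP
    have h2 : (s * dt (e x) (p x)) ^ 2 ≤ ((p x).1 ^ 2 + (p x).2 ^ 2) * (P.1 ^ 2 + P.2 ^ 2) := by
      have e1 : s * dt (e x) (p x) = -((p x).1 * P.2 - (p x).2 * P.1) := by
        simp only [hP, dt, Prod.fst_add, Prod.snd_add, Prod.smul_fst, Prod.smul_snd, smul_eq_mul]
        ring
      rw [e1]
      nlinarith [sq_nonneg ((p x).1 * P.1 + (p x).2 * P.2)]
    have h3 : P.1 ^ 2 + P.2 ^ 2 ≤ V (x, s) / dM M := by
      rw [le_div_iff₀ hΔ]
      have := VV_ge M P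
      simp only [hV]
      linarith
    have h4 : (s * dt (e x) (p x)) ^ 2 ≤ C * (dt (e x) (p x)) ^ 2 * (V (x, s) / dM M) := by
      refine h2.trans ?_
      exact mul_le_mul h1 h3 (by positivity) (by positivity)
    have h5 : s ^ 2 * (dt (e x) (p x)) ^ 2 ≤ (C * (V (x, s) / dM M)) * (dt (e x) (p x)) ^ 2 := by
      nlinarith [h4]
    exact le_of_mul_le_mul_right h5 (by positivity)
  obtain ⟨y0, hy0, hQ0, hV0⟩ := hred z
  set V0 := V z with hV0def
  set B : ℝ := C * (V0 / dM M) with hB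
  set K : Set (ℝ × ℝ) := (Icc 0 L ×ˢ Icc (-(B + 1)) (B + 1)) ∩ (Q4 rho c W N) ⁻¹' {0} with hK
  have hKc : IsCompact K :=
    (isCompact_Icc.prod isCompact_Icc).inter_right (isClosed_singleton.preimage hQc)
  have hmemK : ∀ y ∈ Ico 0 L, ∀ s, Q4 rho c W N (y, s) = 0 → V (y, s) ≤ V0 → (y, s) ∈ K := by
    intro y hy s hq hv
    refine ⟨⟨⟨hy.1, hy.2.le⟩, ?_⟩, hq⟩
    have h1 := hcoer y ⟨hy.1, hy.2.le⟩ s
    have h2 : C * (V (y, s) / dM M) ≤ B := by
      rw [hB]
      exact mul_le_mul_of_nonneg_left (div_le_div_of_nonneg_right hv hΔ.le) hC0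
    have h3 : s ^ 2 ≤ B := h1.trans h2
    constructor
    · simp only; nlinarith [sq_nonneg (s + 1), sq_nonneg s]
    · simp only; nlinarith [sq_nonneg (s - 1), sq_nonneg s]
  have hin0 : (y0, z.2) ∈ K := hmemK y0 hy0 z.2 (by rw [hQ0, hz]) hV0.le
  obtain ⟨zm, hzm, hmin⟩ := hKc.exists_isMinOn ⟨_, hin0⟩ hVc.continuousOn
  have hminall : ∀ w, Q4 rho c W N w = 0 → V zm ≤ V w := by
    intro w hw
    obtain ⟨y, hy, h1, h2⟩ := hred w
    by_cases hle : V (y, w.2) ≤ V0
    · rw [← h2]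
      exact hmin (hmemK y hy w.2 (by rw [h1, hw]) hle)
    · push Not at hle
      rw [← h2]
      have h3 : V zm ≤ V (y0, z.2) := hmin hin0
      rw [hV0] at h3
      linarith
  have hzm0 : Q4 rho c W N zm = 0 := hzm.2
  have hs0 : zm.2 ≠ 0 := by
    intro h
    have h1 := F.rho_pos zm.1
    simp only [Q4, h] at hzm0
    norm_num at hzm0
    linarith
  -- the contradiction
  have key : ∀ σ : ℝ, 0 < σ * zm.2 → False := by
    intro σ hσ
    have hc := cont_of_deriv E.d_c
    have hc1 := E.cont_c1 F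
    have hk := F.sm_k.continuous
    have hrho := F.sm_rho.continuous
    refine min_contra (Y := YY M p e lam rho r σ) (Q := Q4 rho c W N) (V := V)
      (φ := fun z => σ * (rho z.1 * c z.1 + (rho z.1 * c z.1 ^ 2 + c1 z.1
        - 2 * Frame.kk M p e rho r z.1) * z.2))
      (w := fun z => -(σ * z.2) * (2 * dM M * tr M * ((p z.1 + z.2 • e z.1).1 ^ 2
        + (p z.1 + z.2 • e z.1).2 ^ 2))) (z0 := zm)
      ((YY_smooth F σ).contDiffAt.of_le (by exact_mod_cast le_top)) ?_ ?_ ?_ hzm0 ?_ hminall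
    · exact Continuous.continuousAt (by fun_prop)
    · intro α t h
      exact Q4_flow F E σ α t h
    · intro α t h
      exact VV_deriv M (P_flow F σ α t h)
    · have hP : 0 < (p zm.1 + zm.2 • e zm.1).1 ^ 2 + (p zm.1 + zm.2 • e zm.1).2 ^ 2 := by
        have hd := F.d_neg zm.1
        by_contra hcon
        push Not at hcon
        have g1 : (p zm.1 + zm.2 • e zm.1).1 = 0 := by
          nlinarith [sq_nonneg (p zm.1 + zm.2 • e zm.1).1, sq_nonneg (p zm.1 + zm.2 • e zm.1).2]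
        have g2 : (p zm.1 + zm.2 • e zm.1).2 = 0 := by
          nlinarith [sq_nonneg (p zm.1 + zm.2 • e zm.1).1, sq_nonneg (p zm.1 + zm.2 • e zm.1).2]
        have g3 : dt (e zm.1) (p zm.1) = dt (e zm.1) (p zm.1 + zm.2 • e zm.1) := by
          rw [dt_add_right, dt_smul_right, dt_self]; ring
        rw [g3] at hd
        simp only [dt, g1, g2] at hd
        norm_num at hd
      have : 0 < (σ * zm.2) * (2 * dM M * tr M * ((p zm.1 + zm.2 • e zm.1).1 ^ 2
        + (p zm.1 + zm.2 • e zm.1).2 ^ 2)) := by positivity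
      linarith
  rcases lt_or_gt_of_ne hs0 with h | h
  · exact key (-1) (by linarith)
  · exact key 1 (by linarith)

end

end Pool.Agent.V5helper96.PJ
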